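import Pool.Agent.Mg.Fc0911ca.Gb9cfcc

namespace Pool.Agent.MP_c0911c_al

universe u v

open IsLocalRing

theorem poly_term' {r : ℕ} (P : MvPolynomial (Fin r) ℤ) (hP : MvPolynomial.constantCoeff P = 0) :
    ∃ f : RingTerm, ∀ (R : Type u) [NonUnitalCommRing R] (A : Type u) [CommRing A]
      (ψ : R →ₙ+* A) (v : ℕ → R),
      MvPolynomial.eval₂ (Int.castRingHom A) (fun i : Fin r => ψ (v i)) P = ψ (f.eval v) := by
  obtain ⟨f, hf⟩ := poly_term.{u} P
  refine ⟨f, fun R _ A _ ψ v => ?_⟩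
  have := hf A fun i => ψ (v i)
  rwa [hP, Int.cast_zero, zero_add, ← eval_map, MvPolynomial.aeval_def, algebraMap_int_eq] at this

theorem exists_ext {α : Type u} [Zero α] {r : ℕ} (y : Fin r → α) :
    ∃ v : ℕ → α, y = fun i : Fin r => v i :=
  ⟨fun n => if h : n < r then y ⟨n, h⟩ else 0, funext fun i => by simp⟩

theorem vand_teich {S : Type u} [CommRing S] [Finite S] [IsLocalRing S] {q : ℕ}
    (hq : Nat.card (ResidueField S) = q)
    (hT : ∀ a : S, ∃ τ, τ ^ q = τ ∧ a - τ ∈ maximalIdeal S) (m : ℕ → S)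
    (h : ∀ μ : S, μ ^ q = μ → ∑ i ∈ Finset.range q, m i * μ ^ i = 0) : ∀ i < q, m i = 0 := by
  classical
  have : Finite (ResidueField S) := Finite.of_surjective _ (residue_surjective (R := S))
  let e := (Finite.equivFinOfCardEq hq).symm
  have h0 : ∀ i : Fin q, ∃ ω : S, ω ^ q = ω ∧ residue S ω = e i := fun i => by
    obtain ⟨a, ha⟩ := residue_surjective (R := S) (e i)
    obtain ⟨τ, h1, h2⟩ := hT a
    rw [← residue_eq_zero_iff, map_sub, sub_eq_zero] at h2
    exact ⟨τ, h1, h2 ▸ ha⟩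
  choose ω hω0 hω using h0
  have hu : IsUnit (Matrix.vandermonde ω) := by
    rw [Matrix.isUnit_iff_isUnit_det, Matrix.det_vandermonde, IsUnit.prod_iff]
    intro i _
    rw [IsUnit.prod_iff]
    intro j hj
    rw [← notMem_maximalIdeal, ← residue_eq_zero_iff, map_sub, hω, hω, sub_eq_zero]
    exact fun h1 => (Finset.mem_Ioi.1 hj).ne' (e.injective h1)
  have h1 : (Matrix.vandermonde ω).mulVec (fun j : Fin q => m j) =
      (Matrix.vandermonde ω).mulVec 0 := by
    rw [Matrix.mulVec_zero]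
    funext i
    have := h (ω i) (hω0 i)
    rw [Finset.sum_range] at this
    simpa [Matrix.mulVec, dotProduct, Matrix.vandermonde_apply, mul_comm] using this
  intro i hi
  exact congrFun (Matrix.mulVec_injective_of_isUnit hu h1) ⟨i, hi⟩

theorem exists_prim {S : Type u} [CommRing S] [Finite S] [IsLocalRing S] {q : ℕ}
    (hT : ∀ a : S, ∃ τ, τ ^ q = τ ∧ a - τ ∈ maximalIdeal S) :
    ∃ ζ : S, ζ ^ q = ζ ∧ ∀ a : S, ∃ g : Polynomial ℤ,
      a - g.eval₂ (Int.castRingHom S) ζ ∈ maximalIdeal S := by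
  have : Finite (ResidueField S) := Finite.of_surjective _ (residue_surjective (R := S))
  obtain ⟨θ, hθ⟩ := IsCyclic.exists_monoid_generator (α := (ResidueField S)ˣ)
  obtain ⟨b, hb⟩ := residue_surjective (θ : ResidueField S)
  obtain ⟨ζ, h1, h2⟩ := hT b
  rw [← residue_eq_zero_iff, map_sub, sub_eq_zero, hb] at h2
  refine ⟨ζ, h1, fun a => ?_⟩
  by_cases ha : residue S a = 0
  · exact ⟨0, by rwa [Polynomial.eval₂_zero, sub_zero, ← residue_eq_zero_iff]⟩
  · obtain ⟨k, hk⟩ := hθ (Units.mk0 _ ha)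
    refine ⟨Polynomial.X ^ k, ?_⟩
    rw [Polynomial.eval₂_X_pow, ← residue_eq_zero_iff, map_sub, map_pow, ← h2, sub_eq_zero]
    simpa using (congrArg Units.val hk).symm

theorem poly_local {S : Type u} [CommRing S] [Finite S] [IsLocalRing S] {p N r : ℕ} (hp : p.Prime)
    (hS : Nat.card S = p ^ N) {t : Fin r → S} (ht1 : ∀ i, t i ∈ maximalIdeal S)
    (ht2 : maximalIdeal S ≤ Ideal.span (Set.range t) ⊔ (Ideal.span {(p : S)} ⊔ maximalIdeal S ^ 2))
    {f : RingTerm} (hf : VanProper S f) (h0 : ∃ v : ℕ → S, f.eval v ≠ 0) :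
    ∃ P : MvPolynomial (Fin r) ℤ, MvPolynomial.eval₂ (Int.castRingHom S) t P ≠ 0 ∧
      ∀ B : Subring S, B ≠ ⊤ → (∀ x : S, x ^ Nat.card (ResidueField S) = x → x ∈ B) →
        ∀ y : Fin r → S, (∀ i, y i ∈ B) → MvPolynomial.eval₂ (Int.castRingHom S) y P = 0 := by
  have : Finite (ResidueField S) := Finite.of_surjective _ (residue_surjective (R := S))
  obtain ⟨h, h2, ⟨v, hv⟩, -, h5⟩ := core_local.{u, u} hS f h0
  obtain ⟨hT1, -, -⟩ := teich_local hp hS
  obtain ⟨ζ, hζ, hg⟩ := exists_prim hT1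
  choose g hg1 using fun i => hg (v i)
  choose k hk using fun i => decomp (fun g : Polynomial ℤ => g.eval₂ (Int.castRingHom S) ζ) hg
    le_sup_right ht1 (ht2 (hg1 i))
  let F : Polynomial (MvPolynomial (Fin r) ℤ) := h.eval fun i => (g i).map MvPolynomial.C +
    ∑ j, (k i j).map MvPolynomial.C * Polynomial.C (MvPolynomial.X j)
  have h1 : 1 < Nat.card (ResidueField S) := Finite.one_lt_card
  generalize hq : Nat.card (ResidueField S) = q at *
  have hdeg : (Polynomial.X : Polynomial (MvPolynomial (Fin r) ℤ)).degree < q := by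
    rw [Polynomial.degree_X]
    exact_mod_cast h1
  have hG : (F %ₘ (Polynomial.X ^ q - Polynomial.X)).natDegree < q := by
    have h3 := Polynomial.degree_modByMonic_lt F (Polynomial.monic_X_pow_sub hdeg)
    rw [Polynomial.degree_sub_eq_left_of_degree_lt (by rwa [Polynomial.degree_X_pow]),
      Polynomial.degree_X_pow] at h3
    by_cases h4 : F %ₘ (Polynomial.X ^ q - Polynomial.X) = 0
    · rw [h4, Polynomial.natDegree_zero]
      omega
    · exact (Polynomial.natDegree_lt_iff_degree_lt h4).2 h3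
  have hF : ∀ (y : Fin r → S) (μ : S), μ ^ q = μ →
      ∑ j ∈ Finset.range q, MvPolynomial.eval₂ (Int.castRingHom S) y
        ((F %ₘ (Polynomial.X ^ q - Polynomial.X)).coeff j) * μ ^ j =
      h.eval fun i => (g i).eval₂ (Int.castRingHom S) μ +
        ∑ j, (k i j).eval₂ (Int.castRingHom S) μ * y j := by
    intro y μ hμ
    have e : (MvPolynomial.eval₂Hom (Int.castRingHom S) y).comp MvPolynomial.C =
        Int.castRingHom S := RingHom.ext_int _ _
    have h3 := Polynomial.eval₂_eq_sum_range' (MvPolynomial.eval₂Hom (Int.castRingHom S) y) hG μ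
    rw [Polynomial.eval₂_modByMonic_eq_self_of_root (by simp [Polynomial.eval₂_sub, hμ])] at h3
    refine h3.symm.trans ((eval_map (Polynomial.eval₂RingHom
      (MvPolynomial.eval₂Hom (Int.castRingHom S) y) μ) _ h).trans ?_)
    simp only [map_add, map_sum, map_mul, Polynomial.coe_eval₂RingHom, Polynomial.eval₂_map, e,
      Polynomial.eval₂_C, MvPolynomial.eval₂Hom_X']
  have h6 := hF t ζ hζ
  rw [← h5 v _ fun i => by simpa only [sub_sub] using hk i] at h6
  obtain ⟨j, hj, hj0⟩ := Finset.exists_ne_zero_of_sum_ne_zero (h6 ▸ hv)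
  refine ⟨_, left_ne_zero_of_mul hj0, fun B hB hT y hy => vand_teich hq hT1
    (fun j => MvPolynomial.eval₂ (Int.castRingHom S) y
      ((F %ₘ (Polynomial.X ^ q - Polynomial.X)).coeff j)) (fun μ hμ => ?_) j
    (Finset.mem_range.1 hj)⟩
  have h7 : ∀ g : Polynomial ℤ, g.eval₂ (Int.castRingHom S) μ ∈ B := fun g => by
    rw [Polynomial.eval₂_eq_sum_range]
    exact B.sum_mem fun i _ => B.mul_mem (intCast_mem B _) (B.pow_mem (hT μ hμ) _)
  rw [hF y μ hμ]
  refine h2.van B.toNonUnitalSubring (hf _ fun h => hB ?_) _ fun i =>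
    B.add_mem (h7 _) (B.sum_mem fun j _ => B.mul_mem (h7 _) (hy j))
  rw [eq_top_iff]
  intro x _
  have : x ∈ B.toNonUnitalSubring := h ▸ trivial
  exact this

/-- some integer polynomial in `r` variables vanishes at all non-generating tuples of nilpotent
elements but not at all tuples of nilpotent elements -/
def PolyCond (R : Type u) [NonUnitalCommRing R] (r : ℕ) : Prop :=
  ∃ P : MvPolynomial (Fin r) ℤ,
    (∀ y : Fin r → R, (∀ i, IsNilpotent (y i : Unitization ℤ R)) →
      NonUnitalSubring.closure (teich R ∪ Set.range y) ≠ ⊤ →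
      MvPolynomial.eval₂ (Int.castRingHom (Unitization ℤ R))
        (fun i => (y i : Unitization ℤ R)) P = 0) ∧
    ∃ y : Fin r → R, (∀ i, IsNilpotent (y i : Unitization ℤ R)) ∧
      MvPolynomial.eval₂ (Int.castRingHom (Unitization ℤ R))
        (fun i => (y i : Unitization ℤ R)) P ≠ 0

variable {R : Type u} [NonUnitalCommRing R] [Finite R]

omit [Finite R] in
theorem polyCond_iff {r : ℕ}
    (h0 : NonUnitalSubring.closure (teich R ∪ Set.range (0 : Fin r → R)) ≠ ⊤) :
    PolyCond R r ↔ ∃ (P : MvPolynomial (Fin r) ℤ) (f : RingTerm),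
      (∀ (A : Type u) [CommRing A] (ψ : R →ₙ+* A) (v : ℕ → R),
        MvPolynomial.eval₂ (Int.castRingHom A) (fun i : Fin r => ψ (v i)) P = ψ (f.eval v)) ∧
      (∀ v : ℕ → R, (∀ i : Fin r, IsNilpotent (v i : Unitization ℤ R)) →
        NonUnitalSubring.closure (teich R ∪ Set.range fun i : Fin r => v i) ≠ ⊤ → f.eval v = 0) ∧
      ∃ v : ℕ → R, (∀ i : Fin r, IsNilpotent (v i : Unitization ℤ R)) ∧ f.eval v ≠ 0 := by
  constructor
  · rintro ⟨P, h1, y, h2, h3⟩
    have hP : MvPolynomial.constantCoeff P = 0 := by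
      have h4 := h1 0 (fun _ => ⟨1, by simp⟩) h0
      simp only [Pi.zero_apply, Unitization.inr_zero] at h4
      have h5 := MvPolynomial.eval₂Hom_zero'_apply (S₂ := Unitization ℤ R)
        (Int.castRingHom (Unitization ℤ R)) P
      have h6 := congrArg (Unitization.fstHom ℤ R) (h5.symm.trans h4)
      rw [eq_intCast, map_intCast, map_zero] at h6
      exact h6
    obtain ⟨f, hf⟩ := poly_term'.{u} P hP
    have h4 := hf R (Unitization ℤ R) (Unitization.inrNonUnitalAlgHom ℤ R)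
    obtain ⟨v, rfl⟩ := exists_ext y
    exact ⟨P, f, hf R, fun v h5 h6 => Unitization.inr_injective (R := ℤ)
      (((h4 v).symm.trans (h1 _ h5 h6)).trans (Unitization.inr_zero ℤ).symm), v, h2,
      fun h5 => h3 ((h4 v).trans (by rw [h5, map_zero]))⟩
  · rintro ⟨P, f, hf, h1, v, h2, h3⟩
    have h4 := hf (Unitization ℤ R) (Unitization.inrNonUnitalAlgHom ℤ R)
    refine ⟨P, fun y h5 h6 => ?_, _, h2, fun h5 => h3 (Unitization.inr_injective (R := ℤ)
      (((h4 v).symm.trans h5).trans (Unitization.inr_zero ℤ).symm))⟩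
    obtain ⟨w, rfl⟩ := exists_ext y
    exact (h4 w).trans (by rw [h1 w h5 h6, map_zero])

theorem poly_suff {r : ℕ}
    (h0 : NonUnitalSubring.closure (teich R ∪ Set.range (0 : Fin r → R)) ≠ ⊤)
    (hcrit : IsCritical R) (h : PolyCond R r) : IsSectionCritical R := by
  obtain ⟨P, f, hf, h1, v, h2, h3⟩ := (polyCond_iff h0).1 h
  rcases (isCritical_iff R).1 hcrit with ⟨S, _, _, ⟨φ⟩, hc⟩ | ⟨hn, hcyc, hpp⟩
  · have : Finite S := Finite.of_equiv R φ.toEquiv
    obtain ⟨p, N, hp, hS⟩ := exists_card_local (S := S)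
    obtain ⟨θ, h4, h5⟩ := theta_local (S := S)
    have h6 : ∀ w : ℕ → S, (f.subst fun i => θ.subst fun _ => .var i).eval w =
        φ (f.eval fun i => φ.symm (θ.eval fun _ => w i)) := fun w => by
      simp only [eval_subst, RingTerm.eval, eval_map φ, RingEquiv.apply_symm_apply]
    obtain ⟨g, hg1, hg2, hg3⟩ := local_crit' hS (f := f.subst fun i => θ.subst fun _ => .var i)
      ⟨fun i => φ (v i), fun h7 => h3 (φ.injective (by
        rw [h6] at h7
        refine ((hf S φ v).symm.trans ?_).trans (((hf S φ _).trans h7).trans (map_zero φ).symm)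
        congr 1
        funext i
        exact ((φ.apply_symm_apply _).trans (h5 _ ((nil_iff_mem φ _).1 (h2 i)))).symm))⟩
      fun B hB hB0 w hw => by
        rw [h6, h1 _ (fun i => (nil_iff_mem φ _).2 (by simpa using h4 _)) fun h7 =>
          hB (closure_le_comap φ hp hS hB0 ?_ h7), map_zero]
        rintro _ ⟨i, rfl⟩
        rw [RingEquiv.apply_symm_apply]
        exact eval_mem B.toNonUnitalSubring (fun _ => hw i) θ
    exact (isSectionCritical_iff R).2 ⟨g, witness_of_local' φ hc hg1 hg2, hg3.map φ.symm⟩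
  · obtain ⟨p, k, hp, -, hk⟩ := (isPrimePow_nat_iff _).1 hpp
    obtain ⟨n, hpn⟩ := nil_pgroup hn hp hk.symm
    have hnil := nil_of_foldl hn
    have : Nontrivial R := ⟨_, _, h3⟩
    obtain ⟨ι, N, -, hA⟩ := exists_aug hnil
    obtain ⟨h, h4, h5, h6, -⟩ := core_nil.{u, u} hA hpn f ⟨v, h3⟩
    refine (isSectionCritical_iff R).2 ⟨h, witness_nil hn hcyc hp hk.symm h5 h6, fun B hB =>
      h4.van B fun w hw => h1 w (fun _ => hnil _) fun h7 => hB (top_le_iff.1 (h7 ▸ ?_))⟩
    exact closure_le_nil hnil (by rintro _ ⟨i, rfl⟩; exact hw i)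

theorem poly_nec {r : ℕ} {y : Fin r → R}
    (hy : NonUnitalSubring.closure (teich R ∪ Set.range y) = ⊤)
    (h0 : NonUnitalSubring.closure (teich R ∪ Set.range (0 : Fin r → R)) ≠ ⊤) {f : RingTerm}
    (hf1 : Witness R f) (hf2 : VanProper R f) : PolyCond R r := by
  rw [polyCond_iff h0]
  obtain ⟨v0, hv0⟩ := hf1.2
  rcases (isCritical_iff R).1 ((isCritical_iff_witness R).2 ⟨f, hf1⟩) with
    ⟨S, _, _, ⟨φ⟩, -⟩ | ⟨hn, -, hpp⟩
  · have : Finite S := Finite.of_equiv R φ.toEquiv
    obtain ⟨p, N, hp, hS⟩ := exists_card_local (S := S)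
    obtain ⟨t, ht1, ht2⟩ := gens_local φ hp hS hy
    obtain ⟨P, h1, h2⟩ := poly_local hp hS ht1 ht2 (hf2.map φ)
      ⟨fun i => φ (v0 i), by rw [← eval_map]; simpa using hv0⟩
    have h3 : ∀ z : Fin r → R, NonUnitalSubring.closure (teich R ∪ Set.range z) ≠ ⊤ →
        MvPolynomial.eval₂ (Int.castRingHom S) (fun i => φ (z i)) P = 0 := fun z hz => by
      obtain ⟨B, hB⟩ := exists_subring φ hp hS (Set.range z)
      refine h2 B (fun h => hz (eq_top_iff.2 fun x _ => (hB x).1 (h ▸ trivial))) (fun x hx => ?_) _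
        fun i => (hB _).2 (NonUnitalSubring.subset_closure (Or.inr ⟨i, rfl⟩))
      rw [← φ.apply_symm_apply x, hB]
      exact NonUnitalSubring.subset_closure (Or.inl ((mem_teich_iff φ hp hS _).2 (by simpa)))
    have h4 := h3 0 h0
    simp only [Pi.zero_apply, map_zero, MvPolynomial.eval₂_zero'_apply] at h4
    obtain ⟨g, hg⟩ := poly_term'.{u} (P - MvPolynomial.C (MvPolynomial.constantCoeff P)) (by simp)
    have h5 : ∀ v : ℕ → R, φ (g.eval v) =
        MvPolynomial.eval₂ (Int.castRingHom S) (fun i : Fin r => φ (v i)) P := fun v => by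
      refine (hg R S φ v).symm.trans ?_
      rw [MvPolynomial.eval₂_sub, MvPolynomial.eval₂_C, h4, sub_zero]
      rfl
    obtain ⟨w, hw⟩ := exists_ext fun i => φ.symm (t i)
    have h6 : ∀ i : Fin r, φ (w i) = t i := fun i => by
      rw [← congrFun hw i, RingEquiv.apply_symm_apply]
    exact ⟨_, g, hg R, fun v _ hv => φ.injective (by rw [h5, h3 _ hv, map_zero]), w,
      fun i => (nil_iff_mem φ _).2 (h6 i ▸ ht1 i), fun h7 => h1 (by
        rw [← funext h6, ← h5, h7, map_zero])⟩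
  · obtain ⟨p, k, hp, -, hk⟩ := (isPrimePow_nat_iff _).1 hpp
    obtain ⟨n, hpn⟩ := nil_pgroup hn hp hk.symm
    have hnil := nil_of_foldl hn
    have : Nontrivial R := ⟨_, _, hv0⟩
    obtain ⟨ι, N, -, hA⟩ := exists_aug hnil
    obtain ⟨h, h2, ⟨v, hv⟩, -, h5⟩ := core_nil.{u, u} hA hpn f ⟨v0, hv0⟩
    choose c hc using fun i => decomp Int.cast hA.sub
      (le_sup_right (a := Ideal.span {(p : Unitization ℤ R)} * N)) (fun j => hA.mem' (y j))
      (Ideal.mem_sup_left (gens_nil hA hnil hy (hA.mem' (v i))))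
    obtain ⟨g, hg⟩ := poly_term'.{u} (h.eval fun i => ∑ j, c i j • MvPolynomial.X j :
      MvPolynomial (Fin r) ℤ) (by rw [eval_map]; simp [eval_zero])
    have h6 : ∀ w : ℕ → R, g.eval w = h.eval fun i => ∑ j : Fin r, c i j • w j := fun w => by
      apply hA.inj
      rw [← hg R _ ι w, eval_map ι]
      refine (eval_map (MvPolynomial.eval₂Hom _ _) _ h).trans ?_
      simp only [map_sum, map_zsmul, MvPolynomial.eval₂Hom_X']
    obtain ⟨w, rfl⟩ := exists_ext y
    refine ⟨_, g, hg R, fun z _ hz => ?_, w, fun _ => hnil _, ?_⟩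
    · rw [h6]
      exact h2.van _ (hf2 _ hz) _ fun i => sum_mem fun j _ => zsmul_mem
        (NonUnitalSubring.subset_closure (Set.mem_union_right _ (Set.mem_range_self j))) _
    · rwa [h6, ← h5 v _ fun i => by simpa only [map_sum, map_zsmul, zsmul_eq_mul] using hc i]

theorem isSectionCritical_poly (R : Type u) [NonUnitalCommRing R] [Finite R] (r : ℕ)
    (hr : ∃ t : Fin r → R, NonUnitalSubring.closure (teich R ∪ Set.range t) = ⊤) :
    IsSectionCritical R ↔ IsCritical R ∧ PolyCond R r := by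
  obtain ⟨t, ht⟩ := hr
  by_cases h0 : NonUnitalSubring.closure (teich R ∪ Set.range (0 : Fin r → R)) = ⊤
  · have h1 : ∀ X : Set R, NonUnitalSubring.closure (teich R ∪ X) = ⊤ := fun X => by
      rw [eq_top_iff, ← h0, NonUnitalSubring.closure_le]
      rintro x (hx | ⟨i, rfl⟩)
      · exact NonUnitalSubring.subset_closure (Or.inl hx)
      · exact zero_mem _
    constructor
    · intro h
      obtain ⟨f, hf1, -⟩ := (isSectionCritical_iff R).1 h
      refine ⟨(isCritical_iff_witness R).2 ⟨f, hf1⟩, 1, fun y _ hy => absurd (h1 _) hy, 0,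
        fun _ => ⟨1, by simp⟩, fun h2 => ?_⟩
      have h3 := congrArg (Unitization.fstHom ℤ R)
        ((MvPolynomial.eval₂_one (S₁ := Unitization ℤ R) _ _).symm.trans h2)
      simp at h3
    · rintro ⟨h, -⟩
      obtain ⟨f, -, hf⟩ := (isCritical_iff_witness R).1 h
      rcases (isCritical_iff R).1 h with ⟨S, _, _, ⟨φ⟩, hc⟩ | ⟨h5, h6, h7⟩
      · exact rank_local φ hc (y := Fin.elim0) (h1 _) hf fun X hX => absurd hX (Nat.not_lt_zero _)
      · exact rank_nil h5 h6 h7 (y := Fin.elim0) (h1 _) hf fun X hX => absurd hX (Nat.not_lt_zero _)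
  · refine ⟨fun h => ?_, fun h => poly_suff h0 h.1 h.2⟩
    obtain ⟨f, hf1, hf2⟩ := (isSectionCritical_iff R).1 h
    exact ⟨(isCritical_iff_witness R).2 ⟨f, hf1⟩, poly_nec ht h0 hf1 hf2⟩

end Pool.Agent.MP_c0911c_al
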