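import Pool.Agent.Mg.Fc0911c.G8294cd
import Pool.Agent.MP_c0911c_al.LgDefs

section

namespace Pool.Agent.MP_c0911c_al

universe u

open IsLocalRing MvPolynomial

theorem mul_span_bot {S : Type u} [CommRing S] (C : Ideal S) (s : Set S) :
    C * Ideal.span s = ⊥ ↔ ∀ c ∈ C, ∀ y ∈ s, c * y = 0 := by
  constructor
  · intro h c hc y hy
    exact Ideal.mem_bot.1 (h ▸ Ideal.mul_mem_mul hc (Ideal.subset_span hy))
  · intro h
    rw [eq_bot_iff, Ideal.mul_le]
    intro c hc y hy
    rw [Ideal.mem_bot]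
    induction hy using Submodule.span_induction with
    | mem y hy => exact h c hc y hy
    | zero => exact mul_zero c
    | add y z _ _ hy hz => rw [mul_add, hy, hz, add_zero]
    | smul a y _ hy => rw [smul_eq_mul, mul_left_comm, hy, mul_zero]

theorem mul_powIdeal_bot {S : Type u} [CommRing S] (C J : Ideal S) (n : ℕ) :
    C * powIdeal J n = ⊥ ↔ ∀ c ∈ C, ∀ x ∈ J, c * x ^ n = 0 := by
  rw [powIdeal, mul_span_bot]
  exact ⟨fun h c hc x hx => h c hc _ ⟨x, hx, rfl⟩, fun h c hc y hy => by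
    obtain ⟨x, hx, rfl⟩ := hy
    exact h c hc x hx⟩

theorem pow_mem_powIdeal {S : Type u} [CommRing S] {J : Ideal S} {x : S} (hx : x ∈ J) (n : ℕ) :
    x ^ n ∈ powIdeal J n := Ideal.subset_span ⟨x, hx, rfl⟩

theorem powIdeal_le_pow {S : Type u} [CommRing S] (J : Ideal S) (n : ℕ) :
    powIdeal J n ≤ J ^ n := by
  rw [powIdeal, Ideal.span_le]
  rintro _ ⟨x, hx, rfl⟩
  exact Ideal.pow_mem_pow hx n

theorem powIdeal_mono {S : Type u} [CommRing S] {J K : Ideal S} (h : J ≤ K) (n : ℕ) :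
    powIdeal J n ≤ powIdeal K n := by
  rw [powIdeal, Ideal.span_le]
  rintro _ ⟨x, hx, rfl⟩
  exact pow_mem_powIdeal (h hx) n

theorem powIdeal_one {S : Type u} [CommRing S] (J : Ideal S) : powIdeal J 1 = J :=
  le_antisymm ((powIdeal_le_pow J 1).trans (pow_one J).le) fun x hx => by
    have := pow_mem_powIdeal hx 1
    rwa [pow_one] at this

theorem powIdeal_add_le {S : Type u} [CommRing S] (J : Ideal S) (j l : ℕ) :
    powIdeal J (j + l) ≤ powIdeal J j * powIdeal J l := by
  rw [powIdeal, Ideal.span_le]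
  rintro _ ⟨x, hx, rfl⟩
  rw [pow_add]
  exact Ideal.mul_mem_mul (pow_mem_powIdeal hx j) (pow_mem_powIdeal hx l)

theorem powIdeal_mul_le {S : Type u} [CommRing S] (J : Ideal S) (j l : ℕ) :
    powIdeal J (j * l) ≤ powIdeal J j ^ l := by
  rw [powIdeal, Ideal.span_le]
  rintro _ ⟨x, hx, rfl⟩
  rw [pow_mul]
  exact Ideal.pow_mem_pow (pow_mem_powIdeal hx j) l

section Local

variable {S : Type u} [CommRing S] [Finite S] [IsLocalRing S] {q : ℕ}

theorem vand_lg (hq : Nat.card (ResidueField S) = q) (m : ℕ → S)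
    (h : ∀ μ : S, ∑ i ∈ Finset.range q, μ ^ i * m i = 0) : ∀ i < q, m i = 0 := by
  classical
  have : Finite (ResidueField S) := Finite.of_surjective _ (residue_surjective (R := S))
  let e := (Finite.equivFinOfCardEq hq).symm
  choose ω hω using fun i : Fin q => residue_surjective (R := S) (e i)
  have hu : IsUnit (Matrix.vandermonde ω) := by
    rw [Matrix.isUnit_iff_isUnit_det, Matrix.det_vandermonde, IsUnit.prod_iff]
    intro i _
    rw [IsUnit.prod_iff]
    intro j hj
    rw [← notMem_maximalIdeal, ← residue_eq_zero_iff, map_sub, hω, hω, sub_eq_zero]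
    exact fun h1 => (Finset.mem_Ioi.1 hj).ne' (e.injective h1)
  have h1 : (Matrix.vandermonde ω).mulVec (fun j : Fin q => m j) =
      (Matrix.vandermonde ω).mulVec 0 := by
    rw [Matrix.mulVec_zero]
    funext i
    have := h (ω i)
    rw [Finset.sum_range] at this
    simpa [Matrix.mulVec, dotProduct, Matrix.vandermonde_apply] using this
  intro i hi
  exact congrFun (Matrix.mulVec_injective_of_isUnit hu h1) ⟨i, hi⟩

theorem mv_fin_lg (hq : Nat.card (ResidueField S) = q) (n : ℕ) :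
    ∀ Q : MvPolynomial (Fin n) S, (∀ α ∈ Q.support, ∀ i, α i < q) →
      (∀ lam : Fin n → S, eval lam Q = 0) → Q = 0 := by
  have : Finite (ResidueField S) := Finite.of_surjective _ (residue_surjective (R := S))
  have hq0 : 0 < q := hq ▸ Nat.card_pos
  induction n with
  | zero =>
    intro Q _ h
    have := h (fun _ => 0)
    rw [Q.eq_C_of_isEmpty] at this ⊢
    rw [eval_C] at this
    rw [this, C_0]
  | succ n ih =>
    intro Q hs h
    have hdeg : (finSuccEquiv S n Q).natDegree < q := by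
      rw [natDegree_finSuccEquiv, degreeOf_lt_iff hq0]
      exact fun α hα => hs α hα 0
    have key : ∀ i, (finSuccEquiv S n Q).coeff i = 0 := by
      intro i
      by_cases hi : i < q
      swap
      · exact Polynomial.coeff_eq_zero_of_natDegree_lt (by omega)
      apply ih
      · intro α hα j
        rw [mem_support_coeff_finSuccEquiv] at hα
        simpa using hs _ hα j.succ
      · intro lam
        refine vand_lg hq (fun i => eval lam ((finSuccEquiv S n Q).coeff i)) ?_ i hi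
        intro μ
        have h1 := h (Fin.cons μ lam)
        rw [eval_eq_eval_mv_eval', Polynomial.eval_eq_sum_range'
          (lt_of_le_of_lt Polynomial.natDegree_map_le hdeg)] at h1
        rw [← h1]
        refine Finset.sum_congr rfl fun j _ => ?_
        rw [Polynomial.coeff_map, mul_comm]
    have : finSuccEquiv S n Q = 0 := Polynomial.ext fun i => by rw [key, Polynomial.coeff_zero]
    exact (map_eq_zero_iff _ (finSuccEquiv S n).injective).1 this

theorem mv_lg (hq : Nat.card (ResidueField S) = q)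
    (Q : MvPolynomial ℕ S) (hs : ∀ α ∈ Q.support, ∀ i, α i < q)
    (h : ∀ lam : ℕ → S, eval lam Q = 0) : Q = 0 := by
  classical
  obtain ⟨n, f, hf, r, rfl⟩ := exists_fin_rename Q
  have : r = 0 := by
    apply mv_fin_lg hq n r
    · intro α hα i
      have := hs (Finsupp.mapDomain f α) (by
        rw [mem_support_iff, coeff_rename_mapDomain f hf]
        exact mem_support_iff.1 hα) (f i)
      rwa [Finsupp.mapDomain_apply hf] at this
    · intro lam
      have := h (Function.extend f lam 0)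
      rw [eval_rename] at this
      rw [← this]
      congr 2
      funext i
      simp [hf.extend_apply]
  rw [this, map_zero]

/-- separation of monomials -/
theorem sep_lg (hq : Nat.card (ResidueField S) = q) (hm : maximalIdeal S ^ q = ⊥)
    (J : Ideal S) (hJ : J ≤ maximalIdeal S) (P : MvPolynomial ℕ S)
    (h : ∀ x : ℕ → S, (∀ i, x i ∈ J) → eval x P = 0) (x : ℕ → S) (hx : ∀ i, x i ∈ J)
    (α : ℕ →₀ ℕ) : coeff α P * ∏ i ∈ α.support, x i ^ α i = 0 := by
  classical
  let Q : MvPolynomial ℕ S :=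
    ∑ α ∈ P.support, monomial α (coeff α P * ∏ i ∈ α.support, x i ^ α i)
  have hQ : ∀ α, coeff α Q = coeff α P * ∏ i ∈ α.support, x i ^ α i := by
    intro α
    simp only [Q, coeff_sum, coeff_monomial]
    rw [Finset.sum_ite_eq']
    split_ifs with hα
    · rfl
    · rw [notMem_support_iff.1 hα, zero_mul]
  have : Q = 0 := by
    apply mv_lg hq
    · intro α hα i
      by_contra hi
      rw [mem_support_iff, hQ] at hα
      apply hα
      have hq0 : 0 < q := by
        have : Finite (ResidueField S) := Finite.of_surjective _ (residue_surjective (R := S))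
        exact hq ▸ Nat.card_pos
      have hi' : i ∈ α.support := Finsupp.mem_support_iff.2 (by omega)
      have h1 : x i ^ α i = 0 := by
        have := Ideal.pow_le_pow_right (not_lt.1 hi) (Ideal.pow_mem_pow (hJ (hx i)) (α i))
        rwa [hm, Ideal.mem_bot] at this
      rw [Finset.prod_eq_zero hi' h1, mul_zero]
    · intro lam
      rw [← h (fun i => lam i * x i) fun i => J.mul_mem_left _ (hx i), eval_eq (f := P)]
      simp only [Q, map_sum, eval_monomial]
      refine Finset.sum_congr rfl fun α _ => ?_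
      rw [Finsupp.prod, mul_assoc]
      congr 1
      simp only [mul_pow, Finset.prod_mul_distrib]
      rw [mul_comm]
  rw [← hQ, this, coeff_zero]

/-- polarisation of a power -/
theorem split_lg (hq : Nat.card (ResidueField S) = q) (hm : maximalIdeal S ^ q = ⊥)
    {J : Ideal S} (hJ : J ≤ maximalIdeal S) {c : S} {j l : ℕ}
    (h : ∀ x ∈ J, c * x ^ (j + l) = 0) {x y : S} (hx : x ∈ J) (hy : y ∈ J) :
    c * ((j + l).choose j : S) * x ^ j * y ^ l = 0 := by
  by_cases hn : j + l < q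
  · have h1 := vand_lg hq (fun i => c * (x ^ i * y ^ (j + l - i) * ((j + l).choose i : S))) (by
      intro μ
      have h2 := h (μ * x + y) (J.add_mem (J.mul_mem_left _ hx) hy)
      rw [add_pow, Finset.mul_sum] at h2
      rw [← h2]
      symm
      apply Finset.sum_subset_zero_on_sdiff
      · exact Finset.range_subset_range.2 (by omega)
      · intro i hi
        have : j + l < i := by
          have := (Finset.mem_sdiff.1 hi).2
          simp only [Finset.mem_range] at this
          omega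
        simp [Nat.choose_eq_zero_of_lt this]
      · intro i _
        ring) j (by omega)
    simp only [Nat.add_sub_cancel_left] at h1
    rw [← h1]
    ring
  · have h1 := Ideal.mul_mem_mul (Ideal.pow_mem_pow (hJ hx) j) (Ideal.pow_mem_pow (hJ hy) l)
    rw [← pow_add] at h1
    have h2 := Ideal.pow_le_pow_right (not_lt.1 hn) h1
    rw [hm, Ideal.mem_bot] at h2
    rw [mul_assoc, h2, mul_zero]

omit [Finite S] in
theorem unit_lg {p : ℕ} (hp : p.Prime) (hpm : (p : S) ∈ maximalIdeal S) {u : ℕ} (hu : ¬ p ∣ u) :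
    IsUnit (u : S) := by
  rw [← notMem_maximalIdeal]
  intro h
  obtain ⟨a, b, hab⟩ := (Nat.isCoprime_iff_coprime.2 ((Nat.Prime.coprime_iff_not_dvd hp).2 hu))
  have h1 : (1 : S) ∈ maximalIdeal S := by
    have := congrArg (Int.cast : ℤ → S) hab
    push_cast at this
    rw [← this]
    exact Ideal.add_mem _ (Ideal.mul_mem_left _ _ hpm) (Ideal.mul_mem_left _ _ h)
  exact (maximalIdeal.isMaximal S).ne_top ((Ideal.eq_top_iff_one _).2 h1)

/-- polarisation at the level of ideals: the binomial coefficient is `p ^ v` times a unit -/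
theorem split_ideal (hq : Nat.card (ResidueField S) = q) (hm : maximalIdeal S ^ q = ⊥)
    {p : ℕ} (hp : p.Prime) (hpm : (p : S) ∈ maximalIdeal S)
    {J C : Ideal S} (hJ : J ≤ maximalIdeal S) {j l v u : ℕ} (hu : ¬ p ∣ u)
    (hv : (j + l).choose j = p ^ v * u) (h : C * powIdeal J (j + l) = ⊥) :
    C * Ideal.span {(p : S) ^ v} * powIdeal J j * powIdeal J l = ⊥ := by
  rw [mul_powIdeal_bot] at h ⊢
  intro c hc y hy
  revert c
  have : C * Ideal.span {(p : S) ^ v} * Ideal.span {y ^ l} * powIdeal J j = ⊥ := by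
    rw [mul_powIdeal_bot]
    intro c hc x hx
    rw [mul_assoc, Ideal.span_singleton_mul_span_singleton, mul_comm,
      Ideal.mem_span_singleton_mul] at hc
    obtain ⟨z, hz, rfl⟩ := hc
    have h1 := split_lg hq hm hJ (h z hz) hx hy
    rw [hv] at h1
    push_cast at h1
    apply (unit_lg hp hpm hu).mul_left_cancel
    rw [mul_zero, ← h1]
    ring
  intro c hc
  rw [mul_right_comm] at this
  exact Ideal.mem_bot.1 (this ▸ Ideal.mul_mem_mul hc (Ideal.mem_span_singleton_self _))

end Local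

theorem lucas_lg {p : ℕ} (hp : p.Prime) (i n : ℕ) (hn : ¬ p ∣ n + 1) :
    ¬ p ∣ (p ^ i + p ^ i * n).choose (p ^ i) := by
  have : Fact p.Prime := ⟨hp⟩
  have h := Choose.choose_pow_mul_pow_mul_modEq_choose_nat (p := p) (k := i) (a := n + 1) (b := 1)
  rw [mul_one, Nat.choose_one_right, mul_add, mul_one, add_comm] at h
  exact fun h1 => hn ((h.dvd_iff dvd_rfl).1 h1)

end Pool.Agent.MP_c0911c_al

end

section

namespace Pool.Agent.MP_c0911c_al

universe u

open IsLocalRing

/-- product of the ideals of powers -/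
def pp {S : Type u} [CommRing S] (J : Ideal S) (κ : Multiset ℕ) : Ideal S :=
  (κ.map (powIdeal J)).prod

section Basic

variable {S : Type u} [CommRing S]

theorem pp_zero (J : Ideal S) : pp J 0 = 1 := by simp [pp]

theorem pp_cons (J : Ideal S) (k : ℕ) (κ : Multiset ℕ) :
    pp J (k ::ₘ κ) = powIdeal J k * pp J κ := by simp [pp]

theorem pp_add (J : Ideal S) (κ κ' : Multiset ℕ) : pp J (κ + κ') = pp J κ * pp J κ' := by
  simp [pp]

theorem pp_replicate (J : Ideal S) (n k : ℕ) :
    pp J (Multiset.replicate n k) = powIdeal J k ^ n := by simp [pp]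

theorem pp_le_pow (J : Ideal S) (κ : Multiset ℕ) : pp J κ ≤ J ^ κ.sum := by
  induction κ using Multiset.induction_on with
  | empty => simp [pp]
  | cons k κ ih =>
    rw [pp_cons, Multiset.sum_cons, pow_add]
    exact Ideal.mul_mono (powIdeal_le_pow J k) ih

theorem pp_mono {J K : Ideal S} (h : J ≤ K) (κ : Multiset ℕ) : pp J κ ≤ pp K κ := by
  induction κ using Multiset.induction_on with
  | empty => simp [pp]
  | cons k κ ih =>
    rw [pp_cons, pp_cons]
    exact Ideal.mul_mono (powIdeal_mono h k) ih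

theorem pow_mem_pp {J : Ideal S} {x : S} (hx : x ∈ J) (κ : Multiset ℕ) : x ^ κ.sum ∈ pp J κ := by
  induction κ using Multiset.induction_on with
  | empty => simp [pp]
  | cons k κ ih =>
    rw [pp_cons, Multiset.sum_cons, pow_add]
    exact Ideal.mul_mem_mul (pow_mem_powIdeal hx k) ih

theorem bot_of_le {I K : Ideal S} (h : I ≤ K) (hK : K = ⊥) : I = ⊥ := le_bot_iff.1 (hK ▸ h)

theorem sum_levels {p : ℕ} (i : ℕ) (G : Multiset ℕ) (h : ∀ j ∈ G, i ≤ j) :
    ∃ n, (G.map (p ^ ·)).sum = p ^ i * n ∧ n ≡ G.count i [MOD p] := by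
  induction G using Multiset.induction_on with
  | empty => exact ⟨0, by simp, by simp [Nat.ModEq]⟩
  | cons j G ih =>
    obtain ⟨n, h1, h2⟩ := ih fun l hl => h l (Multiset.mem_cons_of_mem hl)
    obtain ⟨d, rfl⟩ := Nat.exists_eq_add_of_le (h j (Multiset.mem_cons_self _ _))
    refine ⟨n + p ^ d, by rw [Multiset.map_cons, Multiset.sum_cons, h1, pow_add]; ring, ?_⟩
    rcases d with _ | d
    · rw [add_zero, Multiset.count_cons_self, pow_zero]
      exact h2.add_right 1
    · rw [Multiset.count_cons_of_ne (by omega), pow_succ']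
      have h3 : n + p * p ^ d ≡ n [MOD p] := by simp [Nat.ModEq]
      exact h3.trans h2

end Basic

section Local

variable {S : Type u} [CommRing S] [Finite S] [IsLocalRing S] {q p : ℕ}

theorem unit_split (hq : Nat.card (ResidueField S) = q) (hm : maximalIdeal S ^ q = ⊥)
    (hp : p.Prime) (hpm : (p : S) ∈ maximalIdeal S) (n : ℕ) :
    ∀ (G : Multiset ℕ) (C : Ideal S), G.card = n → (∀ i, G.count i ≤ p - 1) →
      C * powIdeal (maximalIdeal S) (G.map (p ^ ·)).sum = ⊥ →
      C * pp (maximalIdeal S) (G.map (p ^ ·)) = ⊥ := by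
  induction n with
  | zero =>
    intro G C hG _ h
    rw [Multiset.card_eq_zero.1 hG] at h ⊢
    rw [mul_powIdeal_bot] at h
    rw [Multiset.map_zero, pp_zero, mul_one, eq_bot_iff]
    intro c hc
    simpa using h c hc 0 (zero_mem _)
  | succ n ih =>
    intro G C hG hc h
    have hne : G.toFinset.Nonempty := by
      rw [Multiset.toFinset_nonempty]
      rintro rfl
      simp at hG
    obtain ⟨i, hi, hmin⟩ := G.toFinset.exists_min_image id hne
    obtain ⟨G', rfl⟩ := Multiset.exists_cons_of_mem (Multiset.mem_toFinset.1 hi)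
    obtain ⟨k, h1, h2⟩ := sum_levels (p := p) i G' fun j hj =>
      hmin j (Multiset.mem_toFinset.2 (Multiset.mem_cons_of_mem hj))
    have h3 := hc i
    rw [Multiset.count_cons_self] at h3
    have h4 : ¬ p ∣ k + 1 := by
      intro h5
      have h6 := ((h2.add_right 1).dvd_iff dvd_rfl).1 h5
      have := Nat.le_of_dvd (Nat.succ_pos _) h6
      have := hp.pos
      omega
    rw [Multiset.map_cons, Multiset.sum_cons, h1] at h
    have h5 := split_ideal hq hm hp hpm le_rfl (v := 0) (lucas_lg hp i k h4)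
      (by rw [pow_zero, one_mul]) h
    rw [pow_zero, Ideal.span_singleton_one, ← Ideal.one_eq_top, mul_one, ← h1] at h5
    rw [Multiset.map_cons, pp_cons, ← mul_assoc]
    refine ih G' _ (by simpa using hG) (fun j => ?_) h5
    exact (Multiset.count_le_of_le j (Multiset.le_cons_self G' i)).trans (hc j)

theorem group_lg (hq : Nat.card (ResidueField S) = q) (hm : maximalIdeal S ^ q = ⊥)
    (hp : p.Prime) (hpm : (p : S) ∈ maximalIdeal S) (Φ : Ideal S)
    (e : ℕ) : ∀ (L : Multiset ℕ) (C : Ideal S), (∀ i, L.count i ≤ e * (p - 1)) →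
      (∀ X : Fin e → S, (∀ i, X i ∈ maximalIdeal S) →
        C * pp (Ideal.span (Set.range X) ⊔ Φ) (L.map (p ^ ·)) = ⊥) →
      C * pp (maximalIdeal S) (L.map (p ^ ·)) = ⊥ := by
  induction e with
  | zero =>
    intro L C hL h
    have : L = 0 := Multiset.ext.2 fun i => by simpa using hL i
    subst this
    simpa [pp] using h Fin.elim0 fun i => i.elim0
  | succ e ih =>
    intro L C hL h
    obtain ⟨G, L', rfl, hG, hL'⟩ : ∃ G L' : Multiset ℕ, L = G + L' ∧ (∀ i, G.count i ≤ p - 1) ∧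
        ∀ i, L'.count i ≤ e * (p - 1) := by
      refine ⟨L ∩ ((p - 1) • L.dedup), L - L ∩ ((p - 1) • L.dedup),
        (add_tsub_cancel_of_le Multiset.inter_le_left).symm, fun i => ?_, fun i => ?_⟩
      · rw [Multiset.count_inter, Multiset.count_nsmul, Multiset.count_dedup]
        split_ifs <;> omega
      · rw [Multiset.count_sub, Multiset.count_inter, Multiset.count_nsmul, Multiset.count_dedup]
        have := hL i
        rw [Nat.succ_mul] at this
        split_ifs with h1
        · omega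
        · rw [Multiset.count_eq_zero.2 h1]
          omega
    rw [Multiset.map_add, pp_add, mul_comm (pp _ _), ← mul_assoc]
    refine unit_split hq hm hp hpm _ G _ rfl hG ?_
    rw [mul_powIdeal_bot]
    intro c hc x hx
    have h1 := ih L' (C * Ideal.span {x ^ (G.map (p ^ ·)).sum}) hL' fun X hX => by
      refine bot_of_le ?_ (h (Fin.cons x X) fun i => Fin.cases hx hX i)
      rw [Multiset.map_add, pp_add, mul_assoc]
      refine Ideal.mul_mono_right (Ideal.mul_mono ?_ (pp_mono (sup_le_sup_right ?_ _) _))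
      · rw [Ideal.span_singleton_le_iff_mem]
        exact pow_mem_pp (Ideal.mem_sup_left (Ideal.subset_span
          (show x ∈ Set.range (Fin.cons x X : Fin (e + 1) → S) from ⟨0, rfl⟩))) _
      · exact Ideal.span_mono (by rintro _ ⟨i, rfl⟩; exact ⟨i.succ, rfl⟩)
    rw [mul_right_comm] at h1
    exact Ideal.mem_bot.1 (h1 ▸ Ideal.mul_mem_mul hc (Ideal.mem_span_singleton_self _))

/-- the monomial vanishes on all hyperplanes but not identically -/
def Sep (S : Type u) [CommRing S] [IsLocalRing S] (p a : ℕ) (κ : Multiset ℕ) : Prop :=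
  (∀ k ∈ κ, 0 < k) ∧ Ideal.span {(p : S) ^ a} * pp (maximalIdeal S) κ ≠ ⊥ ∧
    ∀ J : Ideal S, Ideal.span {(p : S)} ⊔ maximalIdeal S ^ 2 ≤ J → J < maximalIdeal S →
      Ideal.span {(p : S) ^ a} * pp J κ = ⊥

omit [Finite S] in
theorem Sep.lt (hm : maximalIdeal S ^ q = ⊥) (hpm : (p : S) ∈ maximalIdeal S) {a : ℕ}
    {κ : Multiset ℕ} (h : Sep S p a κ) : a + κ.sum < q := by
  by_contra h1
  refine h.2.1 (bot_of_le ?_ hm)
  refine le_trans ?_ (Ideal.pow_le_pow_right (not_lt.1 h1))
  rw [pow_add]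
  exact Ideal.mul_mono ((Ideal.span_singleton_le_iff_mem _).2 (Ideal.pow_mem_pow hpm a))
    (pp_le_pow _ _)

theorem Sep.levels (hq : Nat.card (ResidueField S) = q) (hm : maximalIdeal S ^ q = ⊥)
    (hp : p.Prime) (hpm : (p : S) ∈ maximalIdeal S) {a : ℕ} (n : ℕ) :
    ∀ κ : Multiset ℕ, κ.sum ≤ κ.card + n → Sep S p a κ →
      ∃ L : Multiset ℕ, Sep S p a (L.map (p ^ ·)) ∧ (L.map (p ^ ·)).sum = κ.sum := by
  have key : ∀ κ : Multiset ℕ, Sep S p a κ → (∃ L : Multiset ℕ, κ = L.map (p ^ ·)) ∨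
      ∃ κ', Sep S p a κ' ∧ κ'.sum = κ.sum ∧ κ'.card = κ.card + 1 := by
    intro κ h
    by_cases h1 : ∀ k ∈ κ, ∃ i, k = p ^ i
    · refine Or.inl ⟨κ.map (Nat.log p), ?_⟩
      rw [Multiset.map_map]
      conv_lhs => rw [← Multiset.map_id κ]
      refine Multiset.map_congr rfl fun k hk => ?_
      obtain ⟨i, rfl⟩ := h1 k hk
      simp [Nat.log_pow hp.one_lt]
    · push Not at h1
      obtain ⟨k, hk, hk2⟩ := h1
      obtain ⟨κ', rfl⟩ := Multiset.exists_cons_of_mem hk
      have hk0 := h.1 k hk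
      obtain ⟨i, u, hu, rfl⟩ := Nat.exists_eq_pow_mul_and_not_dvd hk0.ne' p hp.ne_one
      obtain ⟨u, rfl⟩ : ∃ u', u = u' + 1 := ⟨u - 1, by
        rcases u with _ | u
        · simp at hu
        · rfl⟩
      have hu0 : 0 < u := Nat.pos_of_ne_zero (by rintro rfl; exact hk2 i (by simp))
      have e : p ^ i * (u + 1) = p ^ i + p ^ i * u := by ring
      rw [e] at h
      refine Or.inr ⟨p ^ i ::ₘ (p ^ i * u) ::ₘ κ', ⟨fun k hk => ?_, fun h2 => h.2.1 ?_,
        fun J h2 h3 => ?_⟩, by simp [e, add_assoc], by simp⟩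
      · rcases Multiset.mem_cons.1 hk with rfl | hk
        · exact pow_pos hp.pos i
        rcases Multiset.mem_cons.1 hk with rfl | hk
        · exact Nat.mul_pos (pow_pos hp.pos i) hu0
        · exact h.1 k (Multiset.mem_cons_of_mem hk)
      · refine bot_of_le (Ideal.mul_mono_right ?_) h2
        rw [pp_cons, pp_cons, pp_cons, ← mul_assoc]
        exact Ideal.mul_mono_left (powIdeal_add_le _ _ _)
      · have h4 := h.2.2 J h2 h3
        rw [pp_cons, mul_comm (powIdeal _ _), ← mul_assoc] at h4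
        have h5 := split_ideal hq hm hp hpm h3.le (v := 0) (lucas_lg hp i u hu)
          (by rw [pow_zero, one_mul]) h4
        rw [pow_zero, Ideal.span_singleton_one, ← Ideal.one_eq_top, mul_one] at h5
        rw [← h5, pp_cons, pp_cons]
        ring
  have hcard : ∀ κ : Multiset ℕ, Sep S p a κ → κ.card ≤ κ.sum := fun κ h => by
    simpa using Multiset.card_nsmul_le_sum (s := κ) (a := 1) h.1
  induction n with
  | zero =>
    intro κ h1 h
    rcases key κ h with ⟨L, rfl⟩ | ⟨κ', h2, h3, h4⟩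
    · exact ⟨L, h, rfl⟩
    · have := hcard κ' h2
      omega
  | succ n ih =>
    intro κ h1 h
    rcases key κ h with ⟨L, rfl⟩ | ⟨κ', h2, h3, h4⟩
    · exact ⟨L, h, rfl⟩
    · rw [← h3]
      exact ih κ' (by omega) h2

end Local

end Pool.Agent.MP_c0911c_al

end

section

namespace Pool.Agent.MP_c0911c_al

universe u

open IsLocalRing

section Local

variable {S : Type u} [CommRing S] [Finite S] [IsLocalRing S] {q p : ℕ}

omit [Finite S] in
/-- a monomial that vanishes on hyperplanes and is not separating vanishes -/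
theorem bot_of_not_sep {a : ℕ} {κ : Multiset ℕ} (h : ¬ Sep S p a κ) (h1 : ∀ k ∈ κ, 0 < k)
    (h2 : ∀ J : Ideal S, Ideal.span {(p : S)} ⊔ maximalIdeal S ^ 2 ≤ J → J < maximalIdeal S →
      Ideal.span {(p : S) ^ a} * pp J κ = ⊥) :
    Ideal.span {(p : S) ^ a} * pp (maximalIdeal S) κ = ⊥ := by
  by_contra h3
  exact h ⟨h1, h3, h2⟩

theorem dev_bot (hq : Nat.card (ResidueField S) = q) (hm : maximalIdeal S ^ q = ⊥)
    (hp : p.Prime) (hpm : (p : S) ∈ maximalIdeal S) {a i : ℕ} {κ : Multiset ℕ}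
    (h : Sep S p a (p ^ i ::ₘ κ))
    (hmax : ∀ a' κ', 2 * a + (p ^ i + κ.sum) < 2 * a' + κ'.sum → ¬ Sep S p a' κ') :
    Ideal.span {(p : S) ^ a} * pp (maximalIdeal S) κ * devIdeal (maximalIdeal S) p (p ^ i) = ⊥ := by
  have hn : 0 < p ^ i := pow_pos hp.pos i
  have hκ : ∀ k ∈ κ, 0 < k := fun k hk => h.1 k (Multiset.mem_cons_of_mem hk)
  have hJ : ∀ J : Ideal S, Ideal.span {(p : S)} ⊔ maximalIdeal S ^ 2 ≤ J → J < maximalIdeal S →
      Ideal.span {(p : S) ^ a} * pp J κ * powIdeal J (p ^ i) = ⊥ := fun J h1 h2 => by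
    rw [← h.2.2 J h1 h2, pp_cons]
    ring
  have hadd : ∀ c ∈ Ideal.span {(p : S) ^ a} * pp (maximalIdeal S) κ, ∀ x ∈ maximalIdeal S,
      ∀ y ∈ maximalIdeal S, c * (x + y) ^ p ^ i = c * x ^ p ^ i + c * y ^ p ^ i := by
    intro c hc x hx y hy
    rw [add_pow, Finset.mul_sum, Finset.sum_eq_add_of_mem (p ^ i) 0 (by simp) (by simp) hn.ne']
    · simp
    · intro j hj hj2
      obtain ⟨l, hl⟩ : ∃ l, p ^ i = j + l :=
        Nat.exists_eq_add_of_le (Nat.lt_succ_iff.1 (Finset.mem_range.1 hj))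
      have hj0 : 0 < j := Nat.pos_of_ne_zero hj2.2
      have hl0 : 0 < l := Nat.pos_of_ne_zero (by rintro rfl; exact hj2.1 (by omega))
      have hd : p ∣ (p ^ i).choose j := hp.dvd_choose_pow hj2.2 hj2.1
      obtain ⟨v, u, hu, hv⟩ := Nat.exists_eq_pow_mul_and_not_dvd
        (Nat.choose_pos (by omega : j ≤ p ^ i)).ne' p hp.ne_one
      have hv0 : 0 < v := Nat.pos_of_ne_zero (by
        rintro rfl
        rw [hv] at hd
        exact hu (by simpa using hd))
      have e : ∀ J : Ideal S, Ideal.span {(p : S) ^ (a + v)} * pp J (j ::ₘ l ::ₘ κ) =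
          Ideal.span {(p : S) ^ a} * pp J κ * Ideal.span {(p : S) ^ v} * powIdeal J j *
            powIdeal J l := fun J => by
        rw [pow_add, ← Ideal.span_singleton_mul_span_singleton, pp_cons, pp_cons]
        ring
      have h1 := bot_of_not_sep (hmax (a + v) (j ::ₘ l ::ₘ κ) (by
        simp only [Multiset.sum_cons]
        omega)) (by simpa [hj0, hl0] using hκ) fun J h1 h2 => by
          rw [e]
          exact split_ideal hq hm hp hpm h2.le hu (by rw [← hl, hv]) (hl ▸ hJ J h1 h2)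
      rw [e] at h1
      have h2 := Ideal.mem_bot.1 (h1 ▸ Ideal.mul_mem_mul (Ideal.mul_mem_mul (Ideal.mul_mem_mul hc
        (Ideal.mem_span_singleton_self ((p : S) ^ v))) (pow_mem_powIdeal hx j))
        (pow_mem_powIdeal hy l))
      rw [hv, hl, Nat.add_sub_cancel_left]
      push_cast
      linear_combination (u : S) * h2
  rw [devIdeal, mul_span_bot]
  rintro c hc _ ⟨x, hx, y, hy, z, hz, rfl⟩
  let K : Ideal S :=
    { carrier := {z | z ∈ maximalIdeal S ∧ c * z ^ p ^ i = 0}
      add_mem' := fun {x y} hx hy => ⟨add_mem hx.1 hy.1, by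
        rw [hadd c hc x hx.1 y hy.1, hx.2, hy.2, add_zero]⟩
      zero_mem' := ⟨zero_mem _, by rw [zero_pow hn.ne', mul_zero]⟩
      smul_mem' := fun a x hx => ⟨Ideal.mul_mem_left _ _ hx.1, by
        rw [smul_eq_mul, mul_pow, mul_left_comm, hx.2, mul_zero]⟩ }
  have hK : Ideal.span {(p : S)} ⊔ maximalIdeal S ^ 2 ≤ K := by
    refine sup_le ((Ideal.span_singleton_le_iff_mem _).2 ⟨hpm, ?_⟩) ?_
    · have e : ∀ J : Ideal S, Ideal.span {(p : S) ^ (a + p ^ i)} * pp J κ =
          Ideal.span {(p : S) ^ a} * pp J κ * Ideal.span {(p : S) ^ p ^ i} := fun J => by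
        rw [pow_add, ← Ideal.span_singleton_mul_span_singleton]
        ring
      have h1 := bot_of_not_sep (hmax (a + p ^ i) κ (by omega)) hκ fun J h1 h2 => by
        rw [e]
        refine bot_of_le (Ideal.mul_mono_right ?_) (hJ J h1 h2)
        rw [Ideal.span_singleton_le_iff_mem]
        exact pow_mem_powIdeal (h1 (Ideal.mem_sup_left (Ideal.mem_span_singleton_self _))) _
      rw [e] at h1
      exact Ideal.mem_bot.1 (h1 ▸ Ideal.mul_mem_mul hc (Ideal.mem_span_singleton_self _))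
    · rw [pow_two, Ideal.mul_le]
      intro x hx y hy
      refine ⟨Ideal.mul_mem_left _ _ hy, ?_⟩
      have h1 := bot_of_not_sep (hmax a (p ^ i ::ₘ p ^ i ::ₘ κ) (by
        simp only [Multiset.sum_cons]
        omega)) (by simpa [hn] using hκ) fun J h1 h2 => by
          rw [pp_cons, mul_left_comm, h.2.2 J h1 h2, Ideal.mul_bot]
      rw [pp_cons, pp_cons, ← mul_assoc (powIdeal _ _), mul_comm _ (pp _ _), ← mul_assoc] at h1
      rw [mul_pow]
      exact Ideal.mem_bot.1 (h1 ▸ Ideal.mul_mem_mul hc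
        (Ideal.mul_mem_mul (pow_mem_powIdeal hx _) (pow_mem_powIdeal hy _)))
  have h1 := hK hz
  rw [mul_sub, mul_sub, hadd c hc _ (add_mem hx hy) z h1.1, hadd c hc x hx y hy, h1.2]
  ring

theorem exists_min_gens (hpm : (p : S) ∈ maximalIdeal S)
    (hne : maximalIdeal S ≠ Ideal.span {(p : S)}) :
    ∃ (e : ℕ) (t : Fin (e + 1) → S), maximalIdeal S = Ideal.span ({(p : S)} ∪ Set.range t) ∧
      ∀ X : Fin e → S, (∀ i, X i ∈ maximalIdeal S) →
        Ideal.span (Set.range X) ⊔ (Ideal.span {(p : S)} ⊔ maximalIdeal S ^ 2) <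
          maximalIdeal S := by
  classical
  have hex : ∃ d : ℕ, ∃ t : Fin d → S,
      maximalIdeal S = Ideal.span ({(p : S)} ∪ Set.range t) := by
    obtain ⟨d, ⟨φ⟩⟩ := Finite.exists_equiv_fin (maximalIdeal S)
    refine ⟨d, fun i => (φ.symm i : S), le_antisymm (fun x hx => Ideal.subset_span
      (Set.mem_union_right _ (Set.mem_range.2 ⟨φ ⟨x, hx⟩, by simp⟩))) (Ideal.span_le.2 ?_)⟩
    rintro _ (rfl | ⟨i, rfl⟩)
    · exact hpm
    · exact (φ.symm i).2
  have hN := Nat.find_spec hex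
  cases hNe : Nat.find hex with
  | zero =>
    rw [hNe] at hN
    obtain ⟨t, ht⟩ := hN
    exact absurd (by simpa using ht) hne
  | succ e =>
    have hmin := Nat.find_min hex (m := e) (by omega)
    rw [hNe] at hN
    obtain ⟨t, ht⟩ := hN
    refine ⟨e, t, ht, fun X hX => lt_of_le_of_ne (sup_le (Ideal.span_le.2 ?_) (sup_le
      ((Ideal.span_singleton_le_iff_mem _).2 hpm) (Ideal.pow_le_self two_ne_zero))) fun h => ?_⟩
    · rintro _ ⟨i, rfl⟩
      exact hX i
    · refine hmin ⟨X, le_antisymm ?_ (Ideal.span_le.2 ?_)⟩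
      · refine Submodule.le_of_le_smul_of_le_jacobson_bot (I := maximalIdeal S)
          (IsNoetherian.noetherian _) (maximalIdeal_le_jacobson _) ?_
        rw [smul_eq_mul, ← pow_two, Ideal.span_union, sup_comm (Ideal.span {(p : S)}), sup_assoc]
        exact h.ge
      · rintro _ (rfl | ⟨i, rfl⟩)
        · exact hpm
        · exact hX i

theorem nec_core (hq : Nat.card (ResidueField S) = q) (hm : maximalIdeal S ^ q = ⊥)
    (hp : p.Prime) (hpm : (p : S) ∈ maximalIdeal S) (hne : maximalIdeal S ≠ Ideal.span {(p : S)})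
    (h : ∃ a κ, Sep S p a κ) :
    ∃ (e : ℕ) (t : Fin (e + 1) → S), maximalIdeal S = Ideal.span ({(p : S)} ∪ Set.range t) ∧
      ∃ (a i : ℕ) (L : Multiset ℕ) (Q I : Ideal S),
        Q = Ideal.span {(p : S) ^ a} *
          (L.map fun j => powIdeal (maximalIdeal S) (p ^ j)).prod ∧
        I = powIdeal (maximalIdeal S) (p ^ i) ∧
        Q * I ^ (e * (p - 1) + 1) ≠ ⊥ ∧
        Q * I ^ (e * (p - 1)) * devIdeal (maximalIdeal S) p (p ^ i) = ⊥ ∧
        ∀ l, l + p = e * (p - 1) + 1 →
          Q * I ^ l * powIdeal (maximalIdeal S) (p ^ (i + 1)) = ⊥ := by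
  classical
  obtain ⟨e, t, ht, hX⟩ := exists_min_gens hpm hne
  refine ⟨e, t, ht, ?_⟩
  let P : ℕ → Prop := fun w => ∃ a κ, Sep S p a κ ∧ 2 * a + κ.sum = w
  have hb : ∀ w, P w → w ≤ 2 * q := by
    rintro _ ⟨a, κ, h, rfl⟩
    have := h.lt hm hpm
    omega
  obtain ⟨a0, κ0, h0⟩ := h
  have hP : P (Nat.findGreatest P (2 * q)) :=
    Nat.findGreatest_spec (hb _ ⟨a0, κ0, h0, rfl⟩) ⟨a0, κ0, h0, rfl⟩
  have hmax : ∀ a κ, Nat.findGreatest P (2 * q) < 2 * a + κ.sum → ¬ Sep S p a κ :=
    fun a κ h1 h2 => Nat.findGreatest_is_greatest h1 (hb _ ⟨a, κ, h2, rfl⟩) ⟨a, κ, h2, rfl⟩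
  generalize Nat.findGreatest P (2 * q) = w at hP hmax
  have hex : ∃ n : ℕ, ∃ (a : ℕ) (L : Multiset ℕ), L.card = n ∧ Sep S p a (L.map (p ^ ·)) ∧
      2 * a + (L.map (p ^ ·)).sum = w := by
    obtain ⟨a, κ, h1, h2⟩ := hP
    obtain ⟨L, h3, h4⟩ := Sep.levels hq hm hp hpm κ.sum κ (Nat.le_add_left _ _) h1
    exact ⟨_, a, L, rfl, h3, by rw [h4, h2]⟩
  obtain ⟨a, L, hcard, hS, hw⟩ := Nat.find_spec hex
  obtain ⟨i, hi⟩ : ∃ i, e * (p - 1) + 1 ≤ L.count i := by
    by_contra hc
    push Not at hc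
    exact hS.2.1 (group_lg hq hm hp hpm _ e L _ (fun i => Nat.lt_succ_iff.1 (hc i))
      fun X hXm => hS.2.2 _ le_sup_right (hX X hXm))
  obtain ⟨L', rfl⟩ := Multiset.le_iff_exists_add.1 (Multiset.le_count_iff_replicate_le.1 hi)
  have e1 : ∀ (J : Ideal S) (n : ℕ), pp J ((Multiset.replicate n i + L').map (p ^ ·)) =
      (L'.map fun j => powIdeal J (p ^ j)).prod * powIdeal J (p ^ i) ^ n := fun J n => by
    rw [Multiset.map_add, pp_add, Multiset.map_replicate, pp_replicate, mul_comm, pp,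
      Multiset.map_map]
    rfl
  refine ⟨a, i, L', _, _, rfl, rfl, ?_, ?_, fun l hl => ?_⟩
  · rw [mul_assoc, ← e1]
    exact hS.2.1
  · rw [Multiset.replicate_succ, Multiset.cons_add, Multiset.map_cons] at hS hw
    rw [mul_assoc (Ideal.span _), ← e1]
    refine dev_bot hq hm hp hpm hS fun a' κ' h1 => hmax a' κ' ?_
    rwa [← hw, Multiset.sum_cons]
  · have hmin := Nat.find_min hex (m := Multiset.card ((i + 1) ::ₘ (Multiset.replicate l i + L')))
      (by
        rw [← hcard]
        have := hp.two_le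
        simp only [Multiset.card_cons, Multiset.card_add, Multiset.card_replicate]
        omega)
    have e2 : ∀ J : Ideal S, pp J (((i + 1) ::ₘ (Multiset.replicate l i + L')).map (p ^ ·)) =
        (L'.map fun j => powIdeal J (p ^ j)).prod * powIdeal J (p ^ i) ^ l *
          powIdeal J (p ^ (i + 1)) := fun J => by
      rw [Multiset.map_cons, pp_cons, e1, mul_comm]
    rw [mul_assoc (Ideal.span _), mul_assoc (Ideal.span _), ← e2]
    refine bot_of_not_sep (fun h1 => hmin ⟨a, _, rfl, h1, ?_⟩) ?_ fun J h1 h2 => ?_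
    · rw [← hw, ← hl]
      simp only [Multiset.map_cons, Multiset.sum_cons, Multiset.map_add, Multiset.sum_add,
        Multiset.map_replicate, Multiset.sum_replicate, smul_eq_mul]
      ring
    · intro k hk
      obtain ⟨j, -, rfl⟩ := Multiset.mem_map.1 hk
      exact pow_pos hp.pos j
    · have h3 := powIdeal_mul_le J (p ^ i) p
      have h4 := hS.2.2 J h1 h2
      rw [← pow_succ] at h3
      rw [e1, ← hl, pow_add (powIdeal J (p ^ i)) l p, ← mul_assoc (Multiset.prod _)] at h4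
      rw [e2]
      exact bot_of_le (Ideal.mul_mono_right (Ideal.mul_mono_right h3)) h4

end Local

end Pool.Agent.MP_c0911c_al

end

section

namespace Pool.Agent.MP_c0911c_al

universe u v

open MvPolynomial

/-- substitution of terms for variables -/
def RingTerm.subst (σ : ℕ → RingTerm) : RingTerm → RingTerm
  | .var n => σ n
  | .zero => .zero
  | .add s t => .add (s.subst σ) (t.subst σ)
  | .neg s => .neg (s.subst σ)
  | .mul s t => .mul (s.subst σ) (t.subst σ)

theorem eval_subst {R : Type u} [NonUnitalRing R] (v : ℕ → R) (σ : ℕ → RingTerm) (t : RingTerm) :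
    (t.subst σ).eval v = t.eval fun i => (σ i).eval v := by
  induction t with
  | var n => rfl
  | zero => rfl
  | add s t hs ht => simp only [RingTerm.subst, RingTerm.eval, hs, ht]
  | neg s hs => simp only [RingTerm.subst, RingTerm.eval, hs]
  | mul s t hs ht => simp only [RingTerm.subst, RingTerm.eval, hs, ht]

theorem exists_support {R : Type u} [NonUnitalRing R] (t : RingTerm) :
    ∃ n : ℕ, ∀ v w : ℕ → R, (∀ k < n, v k = w k) → t.eval v = t.eval w := by
  induction t with
  | var n => exact ⟨n + 1, fun v w h => h n (Nat.lt_succ_self n)⟩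
  | zero => exact ⟨0, fun _ _ _ => rfl⟩
  | neg s hs =>
    obtain ⟨n, hn⟩ := hs
    exact ⟨n, fun v w h => by simp only [RingTerm.eval, hn v w h]⟩
  | add s t hs ht =>
    obtain ⟨n, hn⟩ := hs
    obtain ⟨m, hm⟩ := ht
    exact ⟨n + m, fun v w h => by
      simp only [RingTerm.eval, hn v w fun k hk => h k (by omega), hm v w fun k hk => h k (by omega)]⟩
  | mul s t hs ht =>
    obtain ⟨n, hn⟩ := hs
    obtain ⟨m, hm⟩ := ht
    exact ⟨n + m, fun v w h => by
      simp only [RingTerm.eval, hn v w fun k hk => h k (by omega), hm v w fun k hk => h k (by omega)]⟩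

theorem eval_mem {R : Type u} [NonUnitalRing R] (B : NonUnitalSubring R) {v : ℕ → R}
    (hv : ∀ i, v i ∈ B) (t : RingTerm) : t.eval v ∈ B := by
  induction t with
  | var n => exact hv n
  | zero => exact B.zero_mem
  | add s t hs ht => exact B.add_mem hs ht
  | neg s hs => exact B.neg_mem hs
  | mul s t hs ht => exact B.mul_mem hs ht

/-- `h = 0` is a consequence of `f = 0` -/
def Cons (f h : RingTerm) : Prop :=
  ∀ (B : Type v) [NonUnitalRing B], (∀ v : ℕ → B, f.eval v = 0) → ∀ v : ℕ → B, h.eval v = 0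

section Filt

variable {D : Type u} [CommRing D]

/-- weighted filtration: `π` has weight two, `𝔟` has weight one -/
def filt (π : D) (𝔟 : Ideal D) (w : ℕ) : Ideal D :=
  ⨆ ab : {ab : ℕ × ℕ // w ≤ 2 * ab.1 + ab.2}, Ideal.span {π ^ ab.1.1} * 𝔟 ^ ab.1.2

theorem mem_filt {π : D} {𝔟 : Ideal D} {w : ℕ} (a b : ℕ) (h : w ≤ 2 * a + b) {y : D}
    (hy : y ∈ 𝔟 ^ b) : π ^ a * y ∈ filt π 𝔟 w :=
  Submodule.mem_iSup_of_mem (⟨(a, b), h⟩ : {ab : ℕ × ℕ // w ≤ 2 * ab.1 + ab.2})
    (Ideal.mul_mem_mul (Ideal.mem_span_singleton_self _) hy)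

theorem filt_induction {π : D} {𝔟 : Ideal D} {w : ℕ} {C : D → Prop} {y : D}
    (hy : y ∈ filt π 𝔟 w) (h1 : ∀ a b, w ≤ 2 * a + b → ∀ y ∈ 𝔟 ^ b, C (π ^ a * y))
    (h2 : ∀ y z, C y → C z → C (y + z)) : C y := by
  refine Submodule.iSup_induction (motive := C) _ hy (fun ab y hy => ?_) ?_ h2
  · obtain ⟨z, hz, rfl⟩ := Ideal.mem_span_singleton_mul.1 hy
    exact h1 _ _ ab.2 z hz
  · simpa using h1 w 0 (by omega) 0 (zero_mem _)

theorem filt_mul {π : D} {𝔟 : Ideal D} {w w' w'' : ℕ} (h : w'' ≤ w + w') {y z : D}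
    (hy : y ∈ filt π 𝔟 w) (hz : z ∈ filt π 𝔟 w') : y * z ∈ filt π 𝔟 w'' := by
  refine filt_induction (C := fun y => y * z ∈ filt π 𝔟 w'') hy (fun a b h1 y hy => ?_)
    fun y y' h1 h2 => add_mul y y' z ▸ add_mem h1 h2
  refine filt_induction (C := fun z => π ^ a * y * z ∈ filt π 𝔟 w'') hz (fun a' b' h2 z hz => ?_)
    fun z z' h1 h2 => mul_add (π ^ a * y) z z' ▸ add_mem h1 h2
  have := mem_filt (π := π) (w := w'') (a + a') (b + b') (by omega)
    (pow_add 𝔟 b b' ▸ Ideal.mul_mem_mul hy hz)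
  convert this using 1
  ring

theorem mem_filt_zero (π : D) (𝔟 : Ideal D) (y : D) : y ∈ filt π 𝔟 0 := by
  simpa using mem_filt (π := π) (𝔟 := 𝔟) (w := 0) 0 0 le_rfl (y := y) (by simp)

theorem mem_filt_one {π : D} {𝔟 : Ideal D} {y : D} (hy : y ∈ 𝔟) : y ∈ filt π 𝔟 1 := by
  simpa using mem_filt (π := π) (𝔟 := 𝔟) (w := 1) 0 1 le_rfl (y := y) (by simpa using hy)

theorem mem_filt_pow (π : D) (𝔟 : Ideal D) (a : ℕ) : π ^ a ∈ filt π 𝔟 (2 * a) := by
  simpa using mem_filt (π := π) (𝔟 := 𝔟) (w := 2 * a) a 0 le_rfl (y := 1) (by simp)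

theorem filt_map {π : D} {𝔟 : Ideal D} (ψ : D →+* D) (h0 : ψ π = π) (h1 : ∀ y ∈ 𝔟, ψ y ∈ 𝔟)
    {w : ℕ} {y : D} (hy : y ∈ filt π 𝔟 w) : ψ y ∈ filt π 𝔟 w := by
  refine filt_induction (C := fun y => ψ y ∈ filt π 𝔟 w) hy (fun a b h y hy => ?_)
    fun y z h1 h2 => map_add ψ y z ▸ add_mem h1 h2
  rw [map_mul, map_pow, h0]
  refine mem_filt a b h ?_
  have h2 : Ideal.map ψ 𝔟 ≤ 𝔟 := Ideal.map_le_iff_le_comap.2 h1
  have h3 := Ideal.mem_map_of_mem ψ hy
  rw [Ideal.map_pow] at h3
  exact Ideal.pow_right_mono h2 b h3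

theorem filt_sub {π : D} {𝔟 : Ideal D} (ψ χ : D →+* D) (h0 : ψ π = π) (h0' : χ π = π)
    (h1 : ∀ y ∈ 𝔟, ψ y ∈ 𝔟) (h2 : ∀ y, χ y - ψ y ∈ filt π 𝔟 2)
    {w : ℕ} {y : D} (hy : y ∈ filt π 𝔟 w) : χ y - ψ y ∈ filt π 𝔟 (w + 1) := by
  have key : ∀ b, ∀ y ∈ 𝔟 ^ b, χ y - ψ y ∈ filt π 𝔟 (b + 1) := by
    intro b
    induction b with
    | zero => exact fun y _ => by simpa using filt_mul (by omega) (h2 y) (mem_filt_zero π 𝔟 1)
    | succ b ih =>
      intro y hy
      rw [pow_succ] at hy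
      refine Submodule.mul_induction_on hy (fun y hy z hz => ?_) fun y z hy hz => ?_
      · have h3 : ψ y ∈ filt π 𝔟 b := filt_map ψ h0 h1 (by
          simpa using mem_filt (π := π) (w := b) 0 b (by omega) hy)
        have e : χ (y * z) - ψ (y * z) = (χ y - ψ y) * (χ z - ψ z) + (χ y - ψ y) * ψ z +
            ψ y * (χ z - ψ z) := by
          rw [map_mul, map_mul]
          ring
        rw [e]
        exact add_mem (add_mem (filt_mul (by omega) (ih y hy) (h2 z))
          (filt_mul (by omega) (ih y hy) (mem_filt_one (h1 z hz))))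
          (filt_mul (by omega) h3 (h2 z))
      · rw [map_add, map_add, add_sub_add_comm]
        exact add_mem hy hz
  refine filt_induction (C := fun y => χ y - ψ y ∈ filt π 𝔟 (w + 1)) hy (fun a b h y hy => ?_)
    fun y z h1 h2 => ?_
  · rw [map_mul, map_mul, map_pow, map_pow, h0, h0', ← mul_sub]
    exact filt_mul (by omega) (mem_filt_pow π 𝔟 a) (key b y hy)
  · rw [map_add, map_add, add_sub_add_comm]
    exact add_mem h1 h2

end Filt

section Core

variable {A : Type u} [CommRing A]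

/-- the generic value of `h` near `v` -/
noncomputable def gen (h : RingTerm) (v : ℕ → A) : MvPolynomial ℕ A :=
  h.eval fun i => C (v i) + X i

theorem aeval_gen (h : RingTerm) (v : ℕ → A) (ξ : ℕ → MvPolynomial ℕ A) :
    aeval ξ (gen h v) = h.eval fun i => C (v i) + ξ i := by
  rw [gen, eval_map]
  simp

theorem constantCoeff_gen (h : RingTerm) (v : ℕ → A) : constantCoeff (gen h v) = h.eval v := by
  rw [gen, eval_map]
  simp

theorem aeval_sub_mem (K : Ideal (MvPolynomial ℕ A)) (ξ η : ℕ → MvPolynomial ℕ A)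
    (h : ∀ i, ξ i - η i ∈ K) (y : MvPolynomial ℕ A) : aeval ξ y - aeval η y ∈ K := by
  induction y using MvPolynomial.induction_on with
  | C a => simp
  | add y z hy hz =>
    rw [map_add, map_add, add_sub_add_comm]
    exact add_mem hy hz
  | mul_X y i hy =>
    have e : aeval ξ (y * X i) - aeval η (y * X i) =
        (aeval ξ y - aeval η y) * ξ i + aeval η y * (ξ i - η i) := by
      simp only [map_mul, aeval_X]
      ring
    rw [e]
    exact add_mem (K.mul_mem_right _ hy) (K.mul_mem_left _ (h i))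

theorem aeval_mem_comap (N : Ideal A) (ξ : ℕ → MvPolynomial ℕ A)
    (h : ∀ i, constantCoeff (ξ i) = 0) (y : MvPolynomial ℕ A)
    (hy : y ∈ N.comap (constantCoeff : MvPolynomial ℕ A →+* A)) :
    aeval ξ y ∈ N.comap (constantCoeff : MvPolynomial ℕ A →+* A) := by
  have : constantCoeff (aeval ξ y) = constantCoeff y := by
    clear hy
    induction y using MvPolynomial.induction_on with
    | C a => simp
    | add y z hy hz => simp only [map_add, hy, hz]
    | mul_X y i hy => simp [h]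
  rwa [Ideal.mem_comap, this]

/-- polynomials with constant term in `N` -/
noncomputable def cIdeal (N : Ideal A) : Ideal (MvPolynomial ℕ A) :=
  N.comap (constantCoeff : MvPolynomial ℕ A →+* A)

theorem filt_bound (N : Ideal A) {c : ℕ} (hc : N ^ c = ⊥) {p n w : ℕ} (hw : 2 * n + c < w)
    {g : MvPolynomial ℕ A} (hg : g ∈ filt (p : MvPolynomial ℕ A) (cIdeal N) w) :
    ∃ y : A, constantCoeff g = (p : A) ^ n * y := by
  refine filt_induction (C := fun g => ∃ y : A, constantCoeff g = (p : A) ^ n * y) hg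
    (fun a b hab y hy => ?_) ?_
  · rw [map_mul, map_pow, map_natCast]
    by_cases ha : n ≤ a
    · obtain ⟨d, rfl⟩ := Nat.exists_eq_add_of_le ha
      exact ⟨_, by rw [pow_add, mul_assoc]⟩
    · have h5 := Ideal.pow_le_pow_right (show c ≤ b by omega) (Ideal.le_comap_pow _ b hy)
      rw [hc] at h5
      exact ⟨0, by rw [Ideal.mem_bot.1 h5, mul_zero, mul_zero]⟩
  · rintro y z ⟨a, ha⟩ ⟨b, hb⟩
    exact ⟨a + b, by rw [map_add, ha, hb, mul_add]⟩

theorem theta_mem {N : Ideal A} {θ : RingTerm} {u : A} (h : θ.eval (fun _ => u) ∈ N) (j : ℕ) :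
    θ.eval (fun _ => C u + X j : ℕ → MvPolynomial ℕ A) ∈ cIdeal N := by
  rw [cIdeal, Ideal.mem_comap, eval_map]
  simpa using h

theorem ren_mem {N : Ideal A} {p w : ℕ} {h : RingTerm} {v : ℕ → A}
    (hF : gen h v ∈ filt (p : MvPolynomial ℕ A) (cIdeal N) w) (s : ℕ) :
    h.eval (fun i => C (v i) + X (i + s) : ℕ → MvPolynomial ℕ A) ∈
      filt (p : MvPolynomial ℕ A) (cIdeal N) w := by
  rw [← aeval_gen]
  exact filt_map (aeval fun i => X (i + s) : MvPolynomial ℕ A →ₐ[A] _).toRingHom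
    (map_natCast _ p) (aeval_mem_comap N _ (by simp)) hF

theorem shift_mem {N : Ideal A} {p w : ℕ} {h : RingTerm} {v : ℕ → A}
    (hF : gen h v ∈ filt (p : MvPolynomial ℕ A) (cIdeal N) w) (s : ℕ) (β : ℕ → MvPolynomial ℕ A)
    (hβ : ∀ i, β i ∈ filt (p : MvPolynomial ℕ A) (cIdeal N) 2) :
    h.eval (fun i => C (v i) + X (i + s) + β i : ℕ → MvPolynomial ℕ A) -
      h.eval (fun i => C (v i) + X (i + s) : ℕ → MvPolynomial ℕ A) ∈
      filt (p : MvPolynomial ℕ A) (cIdeal N) (w + 1) := by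
  simp only [add_assoc]
  rw [← aeval_gen, ← aeval_gen]
  exact filt_sub (aeval fun i => X (i + s) : MvPolynomial ℕ A →ₐ[A] _).toRingHom
    (aeval fun i => X (i + s) + β i : MvPolynomial ℕ A →ₐ[A] _).toRingHom
    (map_natCast _ p) (map_natCast _ p) (aeval_mem_comap N _ (by simp))
    (aeval_sub_mem _ _ _ fun i => by
      rw [add_sub_cancel_left]
      exact hβ i) hF

theorem inv_of_single (U : NonUnitalSubring A) (N : Ideal A) (hNU : ∀ x ∈ N, x ∈ U) {p : ℕ}
    {h : RingTerm} (hs : ∀ (k : ℕ) (u x y : A), u ∈ U → x ∈ N → y ∈ N → ∀ v : ℕ → A,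
      (∀ i, v i ∈ U) → h.eval (fun i => v i + if i = k then p • u + x * y else 0) = h.eval v)
    (v : ℕ → A) (hv : ∀ i, v i ∈ U) (z : ℕ → A) (hz : ∀ i, ∃ u ∈ U, z i - p • u ∈ N ^ 2) :
    h.eval (fun i => v i + z i) = h.eval v := by
  have hite : ∀ (c : Prop) [Decidable c] (x y : A), x ∈ U → y ∈ U →
      (x + if c then y else 0) ∈ U := fun c _ x y hx hy => by
    split_ifs
    · exact U.add_mem hx hy
    · simpa using hx
  have hs2 : ∀ (k : ℕ), ∀ y ∈ N ^ 2, y ∈ N ∧ ∀ v : ℕ → A, (∀ i, v i ∈ U) →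
      h.eval (fun i => v i + if i = k then y else 0) = h.eval v := by
    intro k y hy
    rw [pow_two] at hy
    refine Submodule.mul_induction_on hy (fun x hx y hy => ⟨N.mul_mem_left _ hy, fun v hv => ?_⟩)
      fun x y hx hy => ⟨add_mem hx.1 hy.1, fun v hv => ?_⟩
    · simpa using hs k 0 x y U.zero_mem hx hy v hv
    · rw [← hx.2 v hv, ← hy.2 (fun i => v i + if i = k then x else 0) fun i =>
        hite _ _ _ (hv i) (hNU x hx.1)]
      congr 1
      funext i
      split_ifs <;> ring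
  choose u hu hu2 using hz
  have hzU : ∀ i, z i ∈ U := fun i => by
    have := U.add_mem (hNU _ (hs2 0 _ (hu2 i)).1) (nsmul_mem (hu i) p)
    rwa [sub_add_cancel] at this
  have hs3 : ∀ m : ℕ, h.eval (fun i => v i + if i < m then z i else 0) = h.eval v := by
    intro m
    induction m with
    | zero => simp
    | succ m ih =>
      have h3 : ∀ i, (v i + if i < m then z i else 0) ∈ U := fun i => hite _ _ _ (hv i) (hzU i)
      have h4 := hs m (u m) 0 0 (hu m) (zero_mem _) (zero_mem _) _ h3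
      rw [mul_zero, add_zero] at h4
      rw [← ih, ← h4, ← (hs2 m _ (hu2 m)).2 _ fun i => hite _ _ _ (h3 i) (nsmul_mem (hu m) p)]
      congr 1
      funext i
      by_cases hi : i = m
      · subst hi
        simp
      · simp only [hi, if_false, add_zero, Nat.lt_succ_iff_lt_or_eq, or_false]
  obtain ⟨m, hm⟩ := exists_support (R := A) h
  rw [← hs3 m]
  exact hm _ _ fun k hk => by rw [if_pos hk]

theorem core (U : NonUnitalSubring A) (N : Ideal A) (hNU : ∀ x ∈ N, x ∈ U) {c : ℕ}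
    (hc : N ^ c = ⊥) {p n : ℕ} (hp : ∀ y : A, (p : A) ^ n * y ∈ U → (p : A) ^ n * y = 0)
    (θ : RingTerm) (h1 : ∀ u ∈ U, θ.eval (fun _ => u) ∈ N)
    (h2 : ∀ x ∈ N, θ.eval (fun _ => x) = x) (f : RingTerm)
    (hf : ∃ v : ℕ → A, (∀ i, v i ∈ U) ∧ f.eval v ≠ 0) :
    ∃ h : RingTerm, Cons.{v} f h ∧ (∃ v : ℕ → A, (∀ i, v i ∈ U) ∧ h.eval v ≠ 0) ∧
      ∀ v : ℕ → A, (∀ i, v i ∈ U) → (∀ x ∈ N, x * h.eval v = 0) ∧ p • h.eval v = 0 ∧
        ∀ z : ℕ → A, (∀ i, ∃ u ∈ U, z i - p • u ∈ N ^ 2) →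
          h.eval (fun i => v i + z i) = h.eval v := by
  classical
  let P : ℕ → Prop := fun w => ∃ h : RingTerm, Cons.{v} f h ∧
    (∃ v : ℕ → A, (∀ i, v i ∈ U) ∧ h.eval v ≠ 0) ∧
    ∀ v : ℕ → A, (∀ i, v i ∈ U) → gen h v ∈ filt (p : MvPolynomial ℕ A) (cIdeal N) w
  have hb : ∀ w, P w → w ≤ 2 * n + c := by
    rintro w ⟨h, -, ⟨v, hv, hv0⟩, h3⟩
    by_contra hw
    obtain ⟨y, hy⟩ := filt_bound N hc (not_le.1 hw) (h3 v hv)
    rw [constantCoeff_gen] at hy
    exact hv0 (hy ▸ hp y (hy ▸ eval_mem U hv h))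
  have hP0 : P 0 := ⟨f, fun _ _ h => h, hf, fun _ _ => mem_filt_zero _ _ _⟩
  obtain ⟨h, hcons, hne, hF⟩ := Nat.findGreatest_spec (hb 0 hP0) hP0
  have hmax : ∀ g : RingTerm, Cons.{v} h g → (∀ v : ℕ → A, (∀ i, v i ∈ U) →
      gen g v ∈ filt (p : MvPolynomial ℕ A) (cIdeal N) (Nat.findGreatest P (2 * n + c) + 1)) →
      ∀ v : ℕ → A, (∀ i, v i ∈ U) → g.eval v = 0 := by
    intro g hg1 hg2 v hv
    by_contra h0
    have h3 : P _ := ⟨g, fun B _ hB => hg1 B (hcons B hB), ⟨v, hv, h0⟩, hg2⟩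
    exact Nat.findGreatest_is_greatest (Nat.lt_succ_self _) (hb _ h3) h3
  generalize Nat.findGreatest P (2 * n + c) = w at hF hmax
  have hp2 : (p : MvPolynomial ℕ A) ∈ filt (p : MvPolynomial ℕ A) (cIdeal N) 2 := by
    simpa using mem_filt_pow (p : MvPolynomial ℕ A) (cIdeal N) 1
  have hM1 := hmax (.mul (θ.subst fun _ => .var 0) (h.subst fun i => .var (i + 1)))
    (fun B _ hB v => by simp only [RingTerm.eval, eval_subst, hB, mul_zero]) (fun v hv => by
      simp only [gen, RingTerm.eval, eval_subst]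
      exact filt_mul (add_comm w 1).le (mem_filt_one (theta_mem (h1 _ (hv 0)) 0))
        (ren_mem (hF _ fun i => hv (i + 1)) 1))
  have hM2 := hmax (nsmulTerm h p)
    (fun B _ hB v => by rw [eval_nsmulTerm, hB, smul_zero]) (fun v hv => by
      rw [gen, eval_nsmulTerm, nsmul_eq_mul]
      exact filt_mul (show w + 1 ≤ 2 + w by omega) hp2 (hF v hv))
  have hM3 := fun k : ℕ => hmax (.add (h.subst fun i => .add (.var (i + 3))
      (if i = k then .add (nsmulTerm (.var 0) p)
        (.mul (θ.subst fun _ => .var 1) (θ.subst fun _ => .var 2)) else .zero))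
      (.neg (h.subst fun i => .var (i + 3))))
    (fun B _ hB v => by simp only [RingTerm.eval, eval_subst, hB, neg_zero, add_zero])
    (fun v hv => by
      simp only [gen, RingTerm.eval, eval_subst, ← sub_eq_add_neg]
      refine shift_mem (hF _ fun i => hv (i + 3)) 3 _ fun i => ?_
      split_ifs
      · simp only [RingTerm.eval, eval_subst, eval_nsmulTerm, nsmul_eq_mul]
        exact add_mem (Ideal.mul_mem_right _ _ hp2) (filt_mul (show 2 ≤ 1 + 1 from le_rfl)
          (mem_filt_one (theta_mem (h1 _ (hv 1)) 1)) (mem_filt_one (theta_mem (h1 _ (hv 2)) 2)))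
      · exact zero_mem _)
  refine ⟨h, hcons, hne, fun v hv => ⟨fun x hx => ?_, ?_, inv_of_single U N hNU ?_ v hv⟩⟩
  · have := hM1 (fun i => Nat.casesOn i x v) fun i => by
      cases i with
      | zero => exact hNU x hx
      | succ i => exact hv i
    simpa only [RingTerm.eval, eval_subst, Nat.rec_zero, h2 x hx] using this
  · simpa only [eval_nsmulTerm] using hM2 v hv
  · intro k u x y hu hx hy v hv
    have := hM3 k (fun i => match i with | 0 => u | 1 => x | 2 => y | i + 3 => v i) fun i => by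
      match i with
      | 0 => exact hu
      | 1 => exact hNU x hx
      | 2 => exact hNU y hy
      | i + 3 => exact hv i
    simp only [RingTerm.eval, eval_subst, ← sub_eq_add_neg, sub_eq_zero] at this
    rw [← this]
    congr 1
    funext i
    split_ifs
    · simp only [RingTerm.eval, eval_subst, eval_nsmulTerm, h2 x hx, h2 y hy]
    · rfl

end Core

end Pool.Agent.MP_c0911c_al

end

section

namespace Pool.Agent.MP_c0911c_al

universe u v

open IsLocalRing

theorem hyper {A : Type u} [CommRing A] {N Φ J : Ideal A} (hfin : (N : Set A).Finite)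
    (hc : ∀ c : A, (∀ x ∈ N, c * x ∈ Φ) ∨ ∃ d, ∀ x ∈ N, x - d * c * x ∈ Φ) {r : ℕ}
    (t : Fin r → A) (ht : ∀ i, t i ∈ N) (hN : N ≤ Ideal.span (Set.range t) ⊔ Φ)
    (h1 : Φ ≤ J) (h2 : J < N) :
    ∃ e, r = e + 1 ∧ ∃ X : Fin e → A, (∀ i, X i ∈ N) ∧ J ≤ Ideal.span (Set.range X) ⊔ Φ := by
  have hf : {H : Ideal A | H < N}.Finite :=
    (hfin.finite_subsets.preimage (SetLike.coe_injective (A := Ideal A)).injOn).subset
      fun H (hH : H < N) x hx => hH.le hx
  obtain ⟨H, hJH, hH⟩ := hf.exists_le_maximal (a := J) h2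
  have hHN : H < N := hH.1
  obtain ⟨i0, hi0⟩ : ∃ i, t i ∉ H := by
    by_contra h3
    push Not at h3
    refine hHN.not_ge (hN.trans (sup_le (Ideal.span_le.2 ?_) (h1.trans hJH)))
    rintro _ ⟨i, rfl⟩
    exact h3 i
  obtain ⟨e, rfl⟩ : ∃ e, r = e + 1 := ⟨r - 1, by have := i0.pos; omega⟩
  have h3 : H ⊔ Ideal.span {t i0} = N := by
    by_contra h3
    have h4 : H ⊔ Ideal.span {t i0} < N :=
      lt_of_le_of_ne (sup_le hHN.le ((Ideal.span_singleton_le_iff_mem _).2 (ht i0))) h3
    exact hi0 (hH.2 h4 le_sup_left (Ideal.mem_sup_right (Ideal.mem_span_singleton_self _)))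
  have h4 : ∀ j, ∃ l : A, t j - l * t i0 ∈ H := fun j => by
    obtain ⟨a, ha, b, hb, hab⟩ := Submodule.mem_sup.1 (h3 ▸ ht j)
    obtain ⟨l, rfl⟩ := Ideal.mem_span_singleton'.1 hb
    exact ⟨l, by rwa [← hab, add_sub_cancel_right]⟩
  choose l hl using h4
  refine ⟨e, rfl, fun j => t (i0.succAbove j) - l (i0.succAbove j) * t i0, fun j => hHN.le (hl _),
    fun y hy => ?_⟩
  obtain ⟨a, ha, z, hz, rfl⟩ := Submodule.mem_sup.1 (hN (h2.le hy))
  obtain ⟨c, rfl⟩ := Ideal.mem_span_range_iff_exists_fun.1 ha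
  have e1 : ∑ i, c i * t i =
      ∑ j, c (i0.succAbove j) * (t (i0.succAbove j) - l (i0.succAbove j) * t i0) +
        (c i0 + ∑ j, c (i0.succAbove j) * l (i0.succAbove j)) * t i0 := by
    rw [Fin.sum_univ_succAbove _ i0, add_mul, Finset.sum_mul, add_left_comm,
      ← Finset.sum_add_distrib]
    congr 1
    exact Finset.sum_congr rfl fun j _ => by ring
  rw [e1] at hy ⊢
  generalize c i0 + ∑ j, c (i0.succAbove j) * l (i0.succAbove j) = b at hy ⊢
  rcases hc b with h5 | ⟨d, h5⟩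
  · rw [add_assoc]
    exact Submodule.add_mem_sup (Ideal.mem_span_range_iff_exists_fun.2 ⟨_, rfl⟩)
      (add_mem (h5 _ (ht i0)) hz)
  · exfalso
    have h6 : b * t i0 ∈ H := by
      have h7 := sub_mem (hJH hy) (hJH (h1 hz))
      rw [add_sub_cancel_right] at h7
      have h8 := sub_mem h7 (H.sum_mem fun j (_ : j ∈ Finset.univ) =>
        H.mul_mem_left (c (i0.succAbove j)) (hl (i0.succAbove j)))
      rwa [add_sub_cancel_left] at h8
    have h7 := add_mem (hJH (h1 (h5 _ (ht i0)))) (H.mul_mem_left d h6)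
    rw [← mul_assoc, sub_add_cancel] at h7
    exact hi0 h7

section Local

variable {S : Type u} [CommRing S] [Finite S] [IsLocalRing S]

theorem hyper_local {p : S} {J : Ideal S} {r : ℕ} (t : Fin r → S)
    (ht : ∀ i, t i ∈ maximalIdeal S)
    (hN : maximalIdeal S ≤ Ideal.span (Set.range t) ⊔ (Ideal.span {p} ⊔ maximalIdeal S ^ 2))
    (h1 : Ideal.span {p} ⊔ maximalIdeal S ^ 2 ≤ J) (h2 : J < maximalIdeal S) :
    ∃ e, r = e + 1 ∧ ∃ X : Fin e → S, (∀ i, X i ∈ maximalIdeal S) ∧
      J ≤ Ideal.span (Set.range X) ⊔ (Ideal.span {p} ⊔ maximalIdeal S ^ 2) := by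
  refine hyper (Set.toFinite _) (fun c => ?_) t ht hN h1 h2
  by_cases hc : c ∈ maximalIdeal S
  · exact Or.inl fun x hx => Ideal.mem_sup_right (pow_two (maximalIdeal S) ▸ Ideal.mul_mem_mul hc hx)
  · obtain ⟨d, hd⟩ := (notMem_maximalIdeal.1 hc).exists_left_inv
    exact Or.inr ⟨d, fun x _ => by rw [hd, one_mul, sub_self]; exact zero_mem _⟩

theorem span_lt_local {p : ℕ} (hpm : (p : S) ∈ maximalIdeal S) (B : Subring S) (hB : B ≠ ⊤)
    (h0 : ∀ a, ∃ b ∈ B, a - b ∈ maximalIdeal S) :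
    Ideal.span {b | b ∈ B ∧ b ∈ maximalIdeal S} ⊔ (Ideal.span {(p : S)} ⊔ maximalIdeal S ^ 2) <
      maximalIdeal S := by
  refine lt_of_le_of_ne (sup_le (Ideal.span_le.2 fun b hb => hb.2) (sup_le
    ((Ideal.span_singleton_le_iff_mem _).2 hpm) (Ideal.pow_le_self two_ne_zero))) fun h => hB ?_
  refine subring_eq_top _ (maximalIdeal_nilpotent S) B h0 fun y hy => ?_
  have key : ∀ y ∈ Ideal.span {b | b ∈ B ∧ b ∈ maximalIdeal S},
      ∃ b ∈ B, b ∈ maximalIdeal S ∧ y - b ∈ maximalIdeal S ^ 2 := by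
    intro y hy
    induction hy using Submodule.span_induction with
    | mem y hy => exact ⟨y, hy.1, hy.2, by simp⟩
    | zero => exact ⟨0, zero_mem _, zero_mem _, by simp⟩
    | add y z _ _ hy hz =>
      obtain ⟨b, h1, h2, h3⟩ := hy
      obtain ⟨c, h4, h5, h6⟩ := hz
      exact ⟨b + c, add_mem h1 h4, add_mem h2 h5, add_sub_add_comm y z b c ▸ add_mem h3 h6⟩
    | smul a y _ hy =>
      obtain ⟨b, h1, h2, h3⟩ := hy
      obtain ⟨c, h4, h5⟩ := h0 a
      refine ⟨c * b, mul_mem h4 h1, Ideal.mul_mem_left _ _ h2, ?_⟩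
      have e : a • y - c * b = a * (y - b) + (a - c) * b := by
        rw [smul_eq_mul]
        ring
      rw [e]
      exact add_mem (Ideal.mul_mem_left _ _ h3) (pow_two (maximalIdeal S) ▸ Ideal.mul_mem_mul h5 h2)
  rw [← h, ← sup_assoc, sup_eq_left.2 ((Ideal.span_singleton_le_iff_mem _).2
    (Ideal.subset_span (s := {b | b ∈ B ∧ b ∈ maximalIdeal S}) ⟨natCast_mem B p, hpm⟩))] at hy
  obtain ⟨a, ha, z, hz, rfl⟩ := Submodule.mem_sup.1 hy
  obtain ⟨b, h1, h2, h3⟩ := key a ha
  exact ⟨b, h1, h2, add_sub_right_comm a z b ▸ add_mem h3 hz⟩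

omit [Finite S] in
theorem coeff_sup {p : S} {W : Subring S} (hW : ∀ w ∈ W, w ∈ maximalIdeal S → ∃ y ∈ W, w = p * y)
    {J : Ideal S} (h1 : p ∈ J) (h2 : J ≤ maximalIdeal S) :
    ∃ B : Subring S, W ≤ B ∧ (∀ x ∈ J, x ∈ B) ∧ ∀ x ∈ B, x ∈ maximalIdeal S → x ∈ J := by
  refine ⟨{ carrier := {x | ∃ w ∈ W, x - w ∈ J}
            mul_mem' := ?_
            one_mem' := ⟨1, W.one_mem, by simp⟩
            add_mem' := ?_
            zero_mem' := ⟨0, W.zero_mem, by simp⟩
            neg_mem' := ?_ }, fun w hw => ⟨w, hw, by simp⟩, fun x hx => ⟨0, W.zero_mem, by simpa⟩,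
    ?_⟩
  · rintro x y ⟨a, ha, hx⟩ ⟨b, hb, hy⟩
    refine ⟨a * b, W.mul_mem ha hb, ?_⟩
    have e : x * y - a * b = (x - a) * y + a * (y - b) := by ring
    rw [e]
    exact add_mem (J.mul_mem_right _ hx) (J.mul_mem_left _ hy)
  · rintro x y ⟨a, ha, hx⟩ ⟨b, hb, hy⟩
    exact ⟨a + b, W.add_mem ha hb, add_sub_add_comm x y a b ▸ add_mem hx hy⟩
  · rintro x ⟨a, ha, hx⟩
    exact ⟨-a, W.neg_mem ha, by simpa [neg_add_eq_sub] using J.neg_mem hx⟩
  · rintro x ⟨a, ha, hx⟩ hxm
    obtain ⟨y, -, rfl⟩ := hW a ha (by simpa using sub_mem hxm (h2 hx))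
    simpa using add_mem hx (J.mul_mem_right y h1)

theorem theta_local : ∃ θ : RingTerm, (∀ u : S, θ.eval (fun _ => u) ∈ maximalIdeal S) ∧
    ∀ x ∈ maximalIdeal S, θ.eval (fun _ => x) = x := by
  have : Finite (ResidueField S) := Finite.of_surjective _ (residue_surjective (R := S))
  have := Fintype.ofFinite (ResidueField S)
  obtain ⟨L, hL⟩ := maximalIdeal_nilpotent S
  have h1 : L < Fintype.card (ResidueField S) ^ L := Nat.lt_pow_self Fintype.one_lt_card
  obtain ⟨Q, hQ⟩ : ∃ Q, Fintype.card (ResidueField S) ^ L = Q + 1 := ⟨_, (Nat.succ_pred_eq_of_pos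
    (by omega)).symm⟩
  refine ⟨.add (.var 0) (.neg (powTerm (.var 0) Q)), fun u => ?_, fun x hx => ?_⟩
  · simp only [RingTerm.eval, eval_powTerm]
    rw [← residue_eq_zero_iff, map_add, map_neg, map_pow, ← hQ, FiniteField.pow_card_pow,
      add_neg_cancel]
  · simp only [RingTerm.eval, eval_powTerm]
    have h2 := Ideal.pow_mem_pow hx L
    rw [hL] at h2
    rw [pow_eq_zero_of_le (by omega) (Ideal.mem_bot.1 h2), neg_zero, add_zero]

theorem local_crit {h : RingTerm} (h1 : ∀ v : ℕ → S, h.eval v ∈ (maximalIdeal S).annihilator)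
    (h2 : ∃ v : ℕ → S, h.eval v ≠ 0)
    (h3 : ∀ B : Subring S, B ≠ ⊤ → (∀ a, ∃ b ∈ B, a - b ∈ maximalIdeal S) →
      ∀ v : ℕ → S, (∀ i, v i ∈ B) → h.eval v = 0) :
    ∃ f : RingTerm, (∀ v : ℕ → S, f.eval v ∈ (maximalIdeal S).annihilator) ∧
      (∃ v : ℕ → S, f.eval v ≠ 0) ∧ VanProper S f := by
  classical
  have : Finite (ResidueField S) := Finite.of_surjective _ (residue_surjective (R := S))
  have := Fintype.ofFinite (ResidueField S)
  obtain ⟨q, hq⟩ : ∃ q, Fintype.card (ResidueField S) = q + 2 :=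
    ⟨Fintype.card (ResidueField S) - 2, by have := Fintype.one_lt_card (α := ResidueField S); omega⟩
  let g' : ℕ → RingTerm := fun i => .add (powTerm (.var 0) i) (.neg (.var 0))
  have hg' : ∀ (v : ℕ → S) i, (g' i).eval v = v 0 ^ (i + 1) - v 0 := by
    intro v i
    simp only [g', RingTerm.eval, eval_powTerm, sub_eq_add_neg]
  obtain ⟨L, hL⟩ := maximalIdeal_nilpotent S
  have hunit : ∀ a : S, IsUnit (a * ∏ i ∈ Finset.range q, (a ^ (i + 1 + 1) - a)) ↔
      residue S a ≠ 0 ∧ ∀ i < q, residue S a ^ (i + 1) ≠ 1 := by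
    intro a
    rw [← notMem_maximalIdeal, ← residue_eq_zero_iff, map_mul, map_prod, mul_eq_zero,
      Finset.prod_eq_zero_iff, not_or]
    refine and_congr_right fun ha => ?_
    simp only [Finset.mem_range, map_sub, map_pow, not_exists, not_and]
    refine forall_congr' fun i => imp_congr_right fun _ => not_congr ?_
    rw [sub_eq_zero, pow_succ _ (i + 1)]
    exact mul_eq_right₀ ha
  refine ⟨.mul (powTerm (prodTerm g' q) L) (h.subst fun i => .var (i + 1)), fun v => ?_, ?_, ?_⟩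
  · simp only [RingTerm.eval, eval_subst]
    exact Ideal.mul_mem_left _ _ (h1 _)
  · obtain ⟨θ, hθ⟩ := IsCyclic.exists_ofOrder_eq_natCard (α := (ResidueField S)ˣ)
    rw [Nat.card_eq_fintype_card, Fintype.card_units, hq] at hθ
    obtain ⟨a, ha⟩ := residue_surjective (θ : ResidueField S)
    have hu : IsUnit (a * ∏ i ∈ Finset.range q, (a ^ (i + 1 + 1) - a)) := by
      rw [hunit, ha]
      refine ⟨θ.ne_zero, fun i hi h1 => ?_⟩
      have h2 : θ ^ (i + 1) = 1 := Units.ext (by simpa using h1)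
      have := Nat.le_of_dvd (Nat.succ_pos i) (orderOf_dvd_of_pow_eq_one h2)
      omega
    obtain ⟨w, hw⟩ := h2
    refine ⟨fun i => Nat.casesOn i a w, ?_⟩
    simp only [RingTerm.eval, eval_prodTerm, eval_powTerm, hg', Nat.rec_zero, eval_subst]
    exact fun h0 => hw (((hu.pow _).mul_right_eq_zero).1 h0)
  · intro B hB v hv
    simp only [RingTerm.eval, eval_prodTerm, eval_powTerm, hg', eval_subst]
    by_cases hu : IsUnit (v 0 * ∏ i ∈ Finset.range q, (v 0 ^ (i + 1 + 1) - v 0))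
    swap
    · have h1 := Ideal.pow_mem_pow ((mem_maximalIdeal _).2 hu) L
      rw [hL] at h1
      rw [pow_succ, Ideal.mem_bot.1 h1, zero_mul, zero_mul]
    have hpow : ∀ k : ℕ, v 0 ^ (k + 1) ∈ B := by
      intro k
      induction k with
      | zero => simpa using hv 0
      | succ k ih => rw [pow_succ]; exact B.mul_mem ih (hv 0)
    have hone : (1 : S) ∈ B := by
      obtain ⟨u, hu'⟩ := isUnit_of_mul_isUnit_left hu
      have h1 := orderOf_pos u
      have h2 := hpow (orderOf u - 1)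
      rwa [Nat.sub_add_cancel h1, ← hu', ← Units.val_pow_eq_pow_val, pow_orderOf_eq_one] at h2
    let B' : Subring S := B.toSubring hone
    have hB' : B' ≠ ⊤ := by
      intro h1
      apply hB
      rw [eq_top_iff]
      intro x _
      have : x ∈ B' := h1 ▸ trivial
      exact this
    obtain ⟨hv0, hord⟩ := (hunit _).1 hu
    have h0 : ∀ a, ∃ b ∈ B', a - b ∈ maximalIdeal S := by
      intro a
      by_cases ha : residue S a = 0
      · exact ⟨0, B'.zero_mem, by rwa [sub_zero, ← residue_eq_zero_iff]⟩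
      have h1 : orderOf (Units.mk0 _ hv0) = Nat.card (ResidueField S)ˣ := by
        have h2 := orderOf_le_card (x := Units.mk0 _ hv0)
        have h3 := orderOf_pos (Units.mk0 _ hv0)
        rw [Nat.card_eq_fintype_card, Fintype.card_units, hq] at h2 ⊢
        by_contra h4
        apply hord (orderOf (Units.mk0 _ hv0) - 1) (by omega)
        rw [Nat.sub_add_cancel h3]
        have := congrArg Units.val (pow_orderOf_eq_one (Units.mk0 _ hv0))
        rwa [Units.val_pow_eq_pow_val] at this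
      have h2 : Subgroup.zpowers (Units.mk0 _ hv0) = ⊤ := by
        rw [← Subgroup.card_eq_iff_eq_top, Nat.card_zpowers, h1]
      have h3 : Units.mk0 _ ha ∈ Submonoid.powers (Units.mk0 _ hv0) := by
        rw [mem_powers_iff_mem_zpowers, h2]; trivial
      obtain ⟨k, hk⟩ := h3
      refine ⟨v 0 ^ k, B'.pow_mem (hv 0) k, ?_⟩
      have := congrArg Units.val hk
      rw [← residue_eq_zero_iff, map_sub, map_pow, sub_eq_zero]
      simpa using this.symm
    rw [h3 B' hB' h0 _ fun i => hv (i + 1), mul_zero]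

theorem exists_card_local : ∃ p N : ℕ, p.Prime ∧ Nat.card S = p ^ N := by
  have : Finite (ResidueField S) := Finite.of_surjective _ (residue_surjective (R := S))
  obtain ⟨p, hp⟩ := CharP.exists (ResidueField S)
  have hpp : p.Prime := CharP.char_is_prime (ResidueField S) p
  have : Fact p.Prime := ⟨hpp⟩
  have hpm : (p : S) ∈ maximalIdeal S := by
    rw [← residue_eq_zero_iff, map_natCast, CharP.cast_eq_zero]
  obtain ⟨L, hL⟩ := maximalIdeal_nilpotent S
  have h1 := Ideal.pow_mem_pow hpm L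
  rw [hL] at h1
  have h2 : IsPGroup p (Multiplicative S) := fun g => ⟨L, by
    apply Multiplicative.toAdd.injective
    rw [toAdd_pow, toAdd_one, nsmul_eq_mul, Nat.cast_pow, Ideal.mem_bot.1 h1, zero_mul]⟩
  obtain ⟨N, hN⟩ := IsPGroup.iff_card.1 h2
  exact ⟨p, N, hpp, hN⟩

/-- socle-valued consequence that does not see `(p) + m ^ 2` -/
theorem core_local {p N : ℕ} (hc : Nat.card S = p ^ N) (f : RingTerm)
    (hf : ∃ v : ℕ → S, f.eval v ≠ 0) :
    ∃ h : RingTerm, Cons.{v} f h ∧ (∃ v : ℕ → S, h.eval v ≠ 0) ∧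
      (∀ v : ℕ → S, h.eval v ∈ (maximalIdeal S).annihilator) ∧
      ∀ v w : ℕ → S, (∀ i, v i - w i ∈ Ideal.span {(p : S)} ⊔ maximalIdeal S ^ 2) →
        h.eval v = h.eval w := by
  obtain ⟨θ, h1, h2⟩ := theta_local (S := S)
  obtain ⟨L, hL⟩ := maximalIdeal_nilpotent S
  obtain ⟨v, hv⟩ := hf
  obtain ⟨h, h3, ⟨w, -, h4⟩, h5⟩ := core.{u, v} ⊤ (maximalIdeal S) (fun _ _ => trivial) hL
    (p := p) (n := N) (fun y _ => by simpa using p_pow_smul hc y) θ (fun u _ => h1 u) h2 f
    ⟨v, fun _ => trivial, hv⟩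
  refine ⟨h, h3, ⟨w, h4⟩, fun v => Submodule.mem_annihilator.2 fun x hx => ?_, fun v w hvw => ?_⟩
  · rw [smul_eq_mul, mul_comm]
    exact (h5 v fun _ => trivial).1 x hx
  · rw [← (h5 w fun _ => trivial).2.2 (fun i => v i - w i) fun i => ?_]
    · simp
    · obtain ⟨a, ha, z, hz, h6⟩ := Submodule.mem_sup.1 (hvw i)
      obtain ⟨u, rfl⟩ := Ideal.mem_span_singleton'.1 ha
      exact ⟨u, trivial, by rwa [← h6, nsmul_eq_mul, mul_comm, add_sub_cancel_left]⟩

end Local

end Pool.Agent.MP_c0911c_al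

end

section

namespace Pool.Agent.MP_c0911c_al

universe u

open IsLocalRing

section Basic

variable {S : Type u} [CommRing S]

theorem pp_finset (J : Ideal S) (s : Finset ℕ) (α : ℕ → ℕ) :
    pp J (s.val.map α) = ∏ i ∈ s, powIdeal J (α i) := by
  rw [pp, Multiset.map_map]
  rfl

theorem prod_powIdeal_bot (J : Ideal S) (α : ℕ → ℕ) (s : Finset ℕ) : ∀ C : Ideal S,
    (∀ c ∈ C, ∀ x : ℕ → S, (∀ i, x i ∈ J) → c * ∏ i ∈ s, x i ^ α i = 0) →
      C * ∏ i ∈ s, powIdeal J (α i) = ⊥ := by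
  classical
  induction s using Finset.induction_on with
  | empty =>
    intro C h
    rw [Finset.prod_empty, mul_one, eq_bot_iff]
    intro c hc
    simpa using h c hc 0 fun _ => zero_mem _
  | insert k s hk ih =>
    intro C h
    rw [Finset.prod_insert hk, ← mul_assoc]
    refine ih _ fun c hc x hx => ?_
    have : C * Ideal.span {∏ i ∈ s, x i ^ α i} * powIdeal J (α k) = ⊥ := by
      rw [mul_powIdeal_bot]
      intro c hc y hy
      rw [mul_comm, Ideal.mem_span_singleton_mul] at hc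
      obtain ⟨z, hz, rfl⟩ := hc
      have h1 := h z hz (Function.update x k y) fun i => by
        by_cases hi : i = k
        · rwa [hi, Function.update_self]
        · rw [Function.update_of_ne hi]
          exact hx i
      rw [Finset.prod_insert hk, Function.update_self, Finset.prod_congr rfl fun i hi => by
        rw [Function.update_of_ne (ne_of_mem_of_not_mem hi hk)]] at h1
      rw [← h1]
      ring
    rw [mul_right_comm] at this
    exact Ideal.mem_bot.1 (this ▸ Ideal.mul_mem_mul hc (Ideal.mem_span_singleton_self _))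

theorem exists_range_map (κ : Multiset ℕ) :
    ∃ (n : ℕ) (α : ℕ → ℕ), κ = (Finset.range n).val.map α := by
  induction κ using Multiset.induction_on with
  | empty => exact ⟨0, id, rfl⟩
  | cons k κ ih =>
    obtain ⟨n, α, rfl⟩ := ih
    refine ⟨n + 1, Function.update α n k, ?_⟩
    rw [Finset.range_val, Finset.range_val, Multiset.range_succ, Multiset.map_cons,
      Function.update_self]
    congr 1
    exact Multiset.map_congr rfl fun i hi =>
      (Function.update_of_ne (Multiset.mem_range.1 hi).ne _ _).symm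

theorem sup_pow_le_lg {A B I : Ideal S} (hA : A ≤ I) (hB : B ≤ I) (a b : ℕ) :
    (A ⊔ B) ^ (a + b + 1) ≤ A ^ (a + 1) * I ^ b ⊔ B ^ (b + 1) * I ^ a := by
  rw [← Ideal.add_eq_sup, add_pow, Ideal.sum_eq_sup, Finset.sup_le_iff]
  intro j hj
  refine Ideal.mul_le_left.trans ?_
  have hj' := Finset.mem_range.1 hj
  by_cases h : a + 1 ≤ j
  · obtain ⟨d, rfl⟩ := Nat.exists_eq_add_of_le h
    obtain ⟨l, rfl⟩ : ∃ l, b = d + l := ⟨b - d, by omega⟩
    refine le_sup_of_le_left ?_
    rw [show a + (d + l) + 1 - (a + 1 + d) = l by omega, pow_add A (a + 1), pow_add I, mul_assoc]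
    exact Ideal.mul_mono_right (Ideal.mul_mono (Ideal.pow_right_mono hA _)
      (Ideal.pow_right_mono hB _))
  · obtain ⟨d, rfl⟩ : ∃ d, a = d + j := ⟨a - j, by omega⟩
    refine le_sup_of_le_right ?_
    rw [show d + j + b + 1 - j = b + 1 + d by omega, pow_add B (b + 1), pow_add I, mul_comm,
      mul_assoc]
    exact Ideal.mul_mono_right (Ideal.mul_mono (Ideal.pow_right_mono hB _)
      (Ideal.pow_right_mono hA _))

theorem pigeon_lg {I Z : Ideal S} (p e : ℕ) : ∀ y : Fin e → S, (∀ j, y j ∈ I) →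
    (∀ j, y j ^ (p + 1) ∈ Z) →
      Ideal.span (Set.range y) ^ (e * p + 1) ≤ Z * I ^ (e * p - p) := by
  induction e with
  | zero => intro y _ _; simp
  | succ e ih =>
    intro y h1 h2
    rw [Fin.range_fin_succ, Ideal.span_insert, show (e + 1) * p + 1 = p + e * p + 1 by ring]
    refine (sup_pow_le_lg (I := I) ((Ideal.span_singleton_le_iff_mem _).2 (h1 0))
      (Ideal.span_le.2 ?_) _ _).trans (sup_le ?_ ?_)
    · rintro _ ⟨j, rfl⟩
      exact h1 _
    · rw [Ideal.span_singleton_pow, Nat.succ_mul, Nat.add_sub_cancel]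
      exact Ideal.mul_mono_left ((Ideal.span_singleton_le_iff_mem _).2 (h2 0))
    · refine (Ideal.mul_mono_left (ih _ (fun j => h1 _) fun j => h2 _)).trans ?_
      rw [mul_assoc, ← pow_add, Nat.succ_mul, Nat.add_sub_cancel]
      exact Ideal.mul_mono_right (Ideal.pow_le_pow_right (by omega))

theorem powIdeal_le_dev {m J : Ideal S} {p n e : ℕ} (hn : 0 < n) {X : Fin e → S}
    (hX : ∀ j, X j ∈ m) (hJ : J ≤ Ideal.span (Set.range X) ⊔ (Ideal.span {(p : S)} ⊔ m ^ 2)) :
    powIdeal J n ≤ Ideal.span (Set.range fun j => X j ^ n) ⊔ devIdeal m p n := by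
  classical
  rw [powIdeal, Ideal.span_le]
  rintro _ ⟨y, hy, rfl⟩
  obtain ⟨a, ha, z, hz, rfl⟩ := Submodule.mem_sup.1 (hJ hy)
  obtain ⟨c, rfl⟩ := Ideal.mem_span_range_iff_exists_fun.1 ha
  have key : ∀ s : Finset (Fin e), (∑ j ∈ s, c j * X j) ^ n ∈
      Ideal.span (Set.range fun j => X j ^ n) ⊔ devIdeal m p n := by
    intro s
    induction s using Finset.induction_on with
    | empty => simp [hn.ne']
    | insert k s hk ih =>
      rw [Finset.sum_insert hk]
      have h1 : (c k * X k + ∑ j ∈ s, c j * X j + 0) ^ n - (c k * X k) ^ n -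
          (∑ j ∈ s, c j * X j) ^ n ∈ devIdeal m p n := Ideal.subset_span ⟨_,
        m.mul_mem_left _ (hX k), _, m.sum_mem fun j _ => m.mul_mem_left _ (hX j), 0, zero_mem _, rfl⟩
      have h2 : (c k * X k) ^ n ∈ Ideal.span (Set.range fun j => X j ^ n) :=
        mul_pow (c k) (X k) n ▸ Ideal.mul_mem_left _ _ (Ideal.subset_span (Set.mem_range_self k))
      have h3 := add_mem (Submodule.add_mem_sup h2 h1) ih
      convert h3 using 1
      ring
  have h1 : (∑ j, c j * X j + 0 + z) ^ n - (∑ j, c j * X j) ^ n - 0 ^ n ∈ devIdeal m p n :=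
    Ideal.subset_span ⟨_, m.sum_mem fun j _ => m.mul_mem_left _ (hX j), 0, zero_mem _, z, hz, rfl⟩
  have h3 := add_mem (key Finset.univ) (Ideal.mem_sup_right h1)
  rw [zero_pow hn.ne'] at h3
  rw [SetLike.mem_coe]
  convert h3 using 1
  ring

theorem dev_le {m : Ideal S} {p : ℕ} (hp : (p : S) ∈ m) (n : ℕ) :
    devIdeal m p n ≤ powIdeal m n := by
  rw [devIdeal, Ideal.span_le]
  rintro _ ⟨x, hx, y, hy, z, hz, rfl⟩
  have hz' : z ∈ m := sup_le ((Ideal.span_singleton_le_iff_mem _).2 hp)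
    (Ideal.pow_le_self two_ne_zero) hz
  exact sub_mem (sub_mem (pow_mem_powIdeal (add_mem (add_mem hx hy) hz') n) (pow_mem_powIdeal hx n))
    (pow_mem_powIdeal hy n)

end Basic

section Local

variable {S : Type u} [CommRing S] [Finite S] [IsLocalRing S] {q p N : ℕ}

theorem sep_of_van (hp : p.Prime) (hc : Nat.card S = p ^ N) (hq : Nat.card (ResidueField S) = q)
    (hm : maximalIdeal S ^ q = ⊥) {f : RingTerm} (hf : VanProper S f)
    (h0 : ∃ v : ℕ → S, f.eval v ≠ 0) : ∃ a κ, Sep S p a κ := by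
  obtain ⟨W, hW1, hW2⟩ := exists_coeff_ring hp hc
  obtain ⟨v, hv⟩ := h0
  choose w hw hw2 using fun i => hW1 (v i)
  let P : MvPolynomial ℕ S := MvPolynomial.map W.subtype
      (f.eval (fun i => MvPolynomial.C (⟨w i, hw i⟩ : W) + MvPolynomial.X i))
  have hP : ∀ b : ℕ → S, MvPolynomial.eval b P = f.eval (fun i => w i + b i) :=
    fun b => shift_eval W _ f b
  obtain ⟨α, -, hα⟩ : ∃ α ∈ P.support,
      MvPolynomial.coeff α P * ∏ i ∈ α.support, (v i - w i) ^ α i ≠ 0 := by
    apply Finset.exists_ne_zero_of_sum_ne_zero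
    rw [← MvPolynomial.eval_eq, hP]
    simpa using hv
  have h4 : MvPolynomial.coeff α P ∈ W := by
    simp only [P, MvPolynomial.coeff_map]
    exact Subtype.property _
  have h5 : ∀ n : ℕ, (∃ a u, IsUnit u ∧ MvPolynomial.coeff α P = (p : S) ^ a * u) ∨
      ∃ y ∈ W, MvPolynomial.coeff α P = (p : S) ^ n * y := by
    intro n
    induction n with
    | zero => exact Or.inr ⟨_, h4, by simp⟩
    | succ n ih =>
      rcases ih with h | ⟨y, hy, hy2⟩
      · exact Or.inl h
      · by_cases hym : y ∈ maximalIdeal S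
        · obtain ⟨z, hz, rfl⟩ := hW2 y hy hym
          exact Or.inr ⟨z, hz, by rw [hy2]; ring⟩
        · exact Or.inl ⟨n, y, (notMem_maximalIdeal).1 hym, hy2⟩
  rcases h5 N with ⟨a, u, hu, h6⟩ | ⟨y, -, h6⟩
  swap
  · have := p_pow_smul hc y
    rw [nsmul_eq_mul, Nat.cast_pow] at this
    exact absurd (by rw [h6, this, zero_mul]) hα
  refine ⟨a, α.support.val.map α, fun k hk => ?_, fun h => hα ?_, fun J h1 h2 => ?_⟩
  · obtain ⟨i, hi, rfl⟩ := Multiset.mem_map.1 hk
    exact Nat.pos_of_ne_zero (Finsupp.mem_support_iff.1 hi)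
  · rw [pp_finset] at h
    rw [h6]
    exact Ideal.mem_bot.1 (h ▸ Ideal.mul_mem_mul (Ideal.mul_mem_right _ _
      (Ideal.mem_span_singleton_self _)) (Ideal.prod_mem_prod fun i _ => pow_mem_powIdeal (hw2 i) _))
  · obtain ⟨B, hB1, hB2, hB3⟩ := coeff_sup hW2
      (h1 (Ideal.mem_sup_left (Ideal.mem_span_singleton_self _))) h2.le
    rw [pp_finset]
    refine prod_powIdeal_bot J α _ _ fun c hc x hx => ?_
    obtain ⟨s, rfl⟩ := Ideal.mem_span_singleton'.1 hc
    have h7 := sep_lg hq hm J h2.le P (fun x hx => by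
      rw [hP]
      refine hf B.toNonUnitalSubring (fun h => h2.not_ge fun y hy => hB3 y ?_ hy) _
        fun i => B.add_mem (hB1 (hw i)) (hB2 _ (hx i))
      have : y ∈ B.toNonUnitalSubring := h ▸ trivial
      exact this) x hx α
    rw [h6, mul_right_comm] at h7
    rw [mul_assoc, (hu.mul_left_eq_zero).1 h7, mul_zero]

theorem crit_of_sep (hc : Nat.card S = p ^ N) {a : ℕ} {κ : Multiset ℕ} (h : Sep S p a κ) :
    ∃ f : RingTerm, (∀ v : ℕ → S, f.eval v ∈ (maximalIdeal S).annihilator) ∧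
      (∃ v : ℕ → S, f.eval v ≠ 0) ∧ VanProper S f := by
  obtain ⟨n, α, rfl⟩ := exists_range_map κ
  obtain ⟨θ, h1, h2⟩ := theta_local (S := S)
  let f : RingTerm := nsmulTerm (prodTerm
    (fun i => powTerm (θ.subst fun _ => .var i) (α (i - 1) - 1)) n) (p ^ a)
  have hf : ∀ v : ℕ → S, f.eval v =
      v 0 * (p : S) ^ a * ∏ i ∈ Finset.range n, θ.eval (fun _ => v (i + 1)) ^ α i := by
    intro v
    simp only [f, eval_nsmulTerm, eval_prodTerm, eval_powTerm, eval_subst, RingTerm.eval,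
      Nat.add_sub_cancel, nsmul_eq_mul, Nat.cast_pow]
    rw [mul_left_comm, mul_assoc]
    congr 2
    exact Finset.prod_congr rfl fun i hi => by
      rw [Nat.sub_add_cancel (h.1 _ (Multiset.mem_map_of_mem α hi))]
  obtain ⟨g, h3, h4, h5, -⟩ := core_local.{u, u} hc f (by
    by_contra h3
    push Not at h3
    refine h.2.1 ?_
    rw [pp_finset]
    refine prod_powIdeal_bot _ α _ _ fun c hc x hx => ?_
    obtain ⟨s, rfl⟩ := Ideal.mem_span_singleton'.1 hc
    have := h3 fun i => Nat.casesOn i s x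
    rw [hf] at this
    simpa only [Nat.rec_zero, h2 _ (hx _)] using this)
  refine local_crit h5 h4 fun B hB h0 v hv => ?_
  have h6 := h3 B (fun w => Subtype.ext ?_) fun i => ⟨v i, hv i⟩
  · exact (eval_map B.subtype _ g).symm.trans (congrArg Subtype.val h6)
  · refine (eval_map B.subtype w f).trans ?_
    have h7 := h.2.2 _ le_sup_right (span_lt_local (p_mem hc) B hB h0)
    rw [pp_finset] at h7
    have h8 : ∀ i, θ.eval (fun _ => B.subtype (w i)) ∈
        Ideal.span {b | b ∈ B ∧ b ∈ maximalIdeal S} := fun i => Ideal.subset_span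
      (show _ ∈ B ∧ _ from ⟨eval_mem B.toNonUnitalSubring (fun _ => (w i).2) θ, h1 _⟩)
    have h9 := Ideal.mul_mem_mul (Ideal.mem_span_singleton_self ((p : S) ^ a))
      (Ideal.prod_mem_prod (s := Finset.range n) fun i _ => pow_mem_powIdeal
        (Ideal.mem_sup_left (T := Ideal.span {(p : S)} ⊔ maximalIdeal S ^ 2) (h8 (i + 1))) (α i))
    rw [h7, Ideal.mem_bot] at h9
    rw [hf, mul_assoc, h9, mul_zero]
    rfl

theorem sep_of_explicit (hp : p.Prime) {e : ℕ} {t : Fin (e + 1) → S}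
    (ht : maximalIdeal S = Ideal.span ({(p : S)} ∪ Set.range t)) {a i : ℕ} {L : Multiset ℕ}
    {Q I : Ideal S} (hQ : Q = Ideal.span {(p : S) ^ a} *
      (L.map fun j => powIdeal (maximalIdeal S) (p ^ j)).prod)
    (hI : I = powIdeal (maximalIdeal S) (p ^ i)) (h1 : Q * I ^ (e * (p - 1) + 1) ≠ ⊥)
    (h2 : Q * I ^ (e * (p - 1)) * devIdeal (maximalIdeal S) p (p ^ i) = ⊥)
    (h3 : ∀ l, l + p = e * (p - 1) + 1 → Q * I ^ l * powIdeal (maximalIdeal S) (p ^ (i + 1)) = ⊥) :
    ∃ a κ, Sep S p a κ := by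
  have e1 : ∀ (J : Ideal S) (n : ℕ), pp J ((Multiset.replicate n i + L).map (p ^ ·)) =
      (L.map fun j => powIdeal J (p ^ j)).prod * powIdeal J (p ^ i) ^ n := fun J n => by
    rw [Multiset.map_add, pp_add, Multiset.map_replicate, pp_replicate, mul_comm, pp,
      Multiset.map_map]
    rfl
  have hpm : (p : S) ∈ maximalIdeal S := ht ▸ Ideal.subset_span (Set.mem_union_left _ rfl)
  refine ⟨a, (Multiset.replicate (e * (p - 1) + 1) i + L).map (p ^ ·), fun k hk => ?_, ?_,
    fun J hJ1 hJ2 => ?_⟩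
  · obtain ⟨j, -, rfl⟩ := Multiset.mem_map.1 hk
    exact pow_pos hp.pos j
  · rwa [e1, ← mul_assoc, ← hQ, ← hI]
  · obtain ⟨e', he, X, hX, hJ⟩ := hyper_local t
      (fun j => ht ▸ Ideal.subset_span (Set.mem_union_right _ (Set.mem_range_self j)))
      (ht.le.trans (by
        rw [Ideal.span_union]
        exact sup_le (le_sup_of_le_right le_sup_left) le_sup_left)) hJ1 hJ2
    obtain rfl : e = e' := by omega
    have hY : Ideal.span (Set.range fun j => X j ^ p ^ i) ≤ I := by
      rw [Ideal.span_le, hI]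
      rintro _ ⟨j, rfl⟩
      exact pow_mem_powIdeal (hX j) _
    have h4 := (Ideal.pow_right_mono (powIdeal_le_dev (pow_pos hp.pos i) hX hJ) _).trans
      (sup_pow_le_lg hY (hI ▸ dev_le hpm _) (e * (p - 1)) 0)
    have h5 : Ideal.span {(p : S) ^ a} * (L.map fun j => powIdeal J (p ^ j)).prod ≤ Q := by
      have := pp_mono hJ2.le (L.map (p ^ ·))
      rw [pp, pp, Multiset.map_map, Multiset.map_map] at this
      exact hQ ▸ Ideal.mul_mono_right this
    rw [e1, ← mul_assoc]
    refine bot_of_le (Ideal.mul_mono h5 h4) ?_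
    rw [Ideal.mul_sup, zero_add, pow_one, mul_comm (devIdeal _ _ _), ← mul_assoc Q (I ^ _), h2,
      sup_bot_eq, pow_zero, mul_one]
    rcases e with _ | e
    · simp
    · have h6 := pigeon_lg (I := I) (Z := powIdeal (maximalIdeal S) (p ^ (i + 1))) (p - 1) (e + 1)
        (fun j => X j ^ p ^ i) (fun j => hY (Ideal.subset_span (Set.mem_range_self j))) fun j => by
          rw [Nat.sub_add_cancel hp.pos, ← pow_mul, ← pow_succ]
          exact pow_mem_powIdeal (hX j) _
      refine bot_of_le (Ideal.mul_mono_right h6) ?_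
      rw [mul_comm (powIdeal _ _), ← mul_assoc]
      refine h3 _ ?_
      have := hp.pos
      rw [Nat.succ_mul]
      omega

theorem local_large (hp : p.Prime) (hc : Nat.card S = p ^ N)
    (hm : maximalIdeal S ^ Nat.card (ResidueField S) = ⊥) :
    (∃ f : RingTerm, (∀ v : ℕ → S, f.eval v ∈ (maximalIdeal S).annihilator) ∧
      (∃ v : ℕ → S, f.eval v ≠ 0) ∧ VanProper S f) ↔
    (maximalIdeal S = Ideal.span {(p : S)} ∨
      ∃ (e : ℕ) (t : Fin (e + 1) → S), maximalIdeal S = Ideal.span ({(p : S)} ∪ Set.range t) ∧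
      ∃ (a i : ℕ) (L : Multiset ℕ) (Q I : Ideal S),
        Q = Ideal.span {(p : S) ^ a} *
          (L.map fun j => powIdeal (maximalIdeal S) (p ^ j)).prod ∧
        I = powIdeal (maximalIdeal S) (p ^ i) ∧
        Q * I ^ (e * (p - 1) + 1) ≠ ⊥ ∧
        Q * I ^ (e * (p - 1)) * devIdeal (maximalIdeal S) p (p ^ i) = ⊥ ∧
        ∀ l, l + p = e * (p - 1) + 1 →
          Q * I ^ l * powIdeal (maximalIdeal S) (p ^ (i + 1)) = ⊥) := by
  constructor
  · rintro ⟨f, -, h1, h2⟩
    exact or_iff_not_imp_left.2 fun h =>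
      nec_core rfl hm hp (p_mem hc) h (sep_of_van hp hc rfl hm h2 h1)
  · rintro (h | ⟨e, t, ht, a, i, L, Q, I, hQ, hI, h1, h2, h3⟩)
    · exact local_sufficient (Or.inl h)
    · obtain ⟨a, κ, h⟩ := sep_of_explicit hp ht hQ hI h1 h2 h3
      exact crit_of_sep hc h

end Local

end Pool.Agent.MP_c0911c_al

end

section

namespace Pool.Agent.MP_c0911c_al

universe u v

open IsLocalRing

theorem nil_of_no_idem {R : Type u} [NonUnitalCommRing R] [Finite R]
    (h : ∀ e : R, e * e = e → e = 0) (x : R) : IsNilpotent (x : Unitization ℤ R) := by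
  obtain ⟨m, hm, hm2⟩ := exists_idem x
  have : ∃ k : ℕ, (m : Unitization ℤ R) = (x : Unitization ℤ R) ^ k := by
    clear hm2
    induction hm using Subsemigroup.closure_induction with
    | mem y hy => exact ⟨1, by rw [Set.mem_singleton_iff.1 hy, pow_one]⟩
    | mul y z _ _ hy hz =>
      obtain ⟨i, hi⟩ := hy
      obtain ⟨j, hj⟩ := hz
      exact ⟨i + j, by rw [Unitization.inr_mul, hi, hj, pow_add]⟩
  obtain ⟨k, hk⟩ := this
  exact ⟨k, by rw [← hk, h m hm2, Unitization.inr_zero]⟩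

theorem nil_iff_mem {R : Type u} [NonUnitalCommRing R] {S : Type v} [CommRing S] [Finite S]
    [IsLocalRing S] (φ : R ≃+* S) (x : R) :
    IsNilpotent (x : Unitization ℤ R) ↔ φ x ∈ maximalIdeal S := by
  have h1 : ∀ n, (x : Unitization ℤ R) ^ (n + 1) = 0 ↔ φ x ^ (n + 1) = 0 := fun n => by
    have h2 := inr_nprod n fun _ => x
    have h3 := map_nprod φ n fun _ => x
    rw [Finset.prod_const, Finset.card_fin] at h2 h3
    rw [← h2, ← h3, map_eq_zero_iff φ φ.injective, ← Unitization.inr_zero,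
      Unitization.inr_injective.eq_iff]
  constructor
  · rintro ⟨k, hk⟩
    exact (maximalIdeal.isMaximal S).isPrime.mem_of_pow_mem (k + 1)
      ((h1 k).1 (by rw [pow_succ, hk, zero_mul]) ▸ zero_mem _)
  · intro hx
    obtain ⟨L, hL⟩ := maximalIdeal_nilpotent S
    have h3 := Ideal.pow_mem_pow hx L
    rw [hL] at h3
    exact ⟨L + 1, (h1 L).2 (by rw [pow_succ, Ideal.mem_bot.1 h3, zero_mul])⟩

theorem large_pow_bot {R : Type u} [NonUnitalCommRing R] [Finite R] {S : Type v} [CommRing S]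
    [IsLocalRing S] (φ : R ≃+* S) {p N q : ℕ} (hp : p.Prime) (hcard : Nat.card R = p ^ N)
    (hq : q = max p (Nat.card R / Nat.card {x : R // IsNilpotent (x : Unitization ℤ R)}))
    (hlarge : ∀ x : Fin q → R, (∀ i, IsNilpotent (x i : Unitization ℤ R)) →
      ∏ i, (x i : Unitization ℤ R) = 0) :
    maximalIdeal S ^ Nat.card (ResidueField S) = ⊥ := by
  have : Finite S := Finite.of_equiv R φ.toEquiv
  have : Finite (ResidueField S) := Finite.of_surjective _ (residue_surjective (R := S))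
  have h1 : Nat.card {x : R // IsNilpotent (x : Unitization ℤ R)} = Nat.card (maximalIdeal S) :=
    Nat.card_congr (φ.toEquiv.subtypeEquiv (nil_iff_mem φ))
  have h2 : Nat.card R = Nat.card (ResidueField S) * Nat.card (maximalIdeal S) :=
    (Nat.card_congr φ.toEquiv).trans
      (AddSubgroup.card_eq_card_quotient_mul_card_addSubgroup (maximalIdeal S).toAddSubgroup)
  have h3 : p ≤ Nat.card (ResidueField S) := by
    obtain ⟨k, -, hk⟩ := (Nat.dvd_prime_pow hp).1 (hcard ▸ h2 ▸ Nat.dvd_mul_right _ _ :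
      Nat.card (ResidueField S) ∣ p ^ N)
    have h4 : 1 < Nat.card (ResidueField S) := Finite.one_lt_card
    rw [hk] at h4 ⊢
    exact Nat.le_self_pow (by rintro rfl; simp at h4) p
  rw [h1, h2, Nat.mul_div_cancel _ Nat.card_pos, max_eq_right h3] at hq
  rw [← hq]
  obtain ⟨n, rfl⟩ : ∃ n, q = n + 1 := ⟨q - 1, by have := hp.pos; omega⟩
  rw [eq_bot_iff]
  intro y hy
  have := pow_eq_bot_of_prod (maximalIdeal S) (n + 1) 1 (fun x hx => by
    have h2 := hlarge (fun i => φ.symm (x i)) fun i => (nil_iff_mem φ _).2 (by simpa using hx i)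
    rw [← inr_nprod] at h2
    have h3 : nprod n (fun i => φ.symm (x i)) = 0 :=
      Unitization.inr_injective (R := ℤ) (by rw [h2, Unitization.inr_zero])
    have h4 := congrArg φ h3
    rw [map_nprod, map_zero] at h4
    simpa using h4) y hy
  simpa using this

theorem isSectionCritical_large (R : Type u) [NonUnitalCommRing R] [Finite R] (p N q : ℕ)
    (hp : p.Prime) (hcard : Nat.card R = p ^ N)
    (hq : q = max p (Nat.card R / Nat.card {x : R // IsNilpotent (x : Unitization ℤ R)}))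
    (hlarge : ∀ x : Fin q → R, (∀ i, IsNilpotent (x i : Unitization ℤ R)) →
      ∏ i, (x i : Unitization ℤ R) = 0) :
    IsSectionCritical R ↔
      (∃ (S : Type u) (_ : CommRing S) (_ : IsLocalRing S) (m : Ideal S), Nonempty (R ≃+* S) ∧
        m = IsLocalRing.maximalIdeal S ∧
        Nat.card m.annihilator = Nat.card (IsLocalRing.ResidueField S) ∧
        (m = Ideal.span {(p : S)} ∨
          ∃ (e : ℕ) (t : Fin (e + 1) → S), m = Ideal.span ({(p : S)} ∪ Set.range t) ∧
            ∃ (a i : ℕ) (L : Multiset ℕ) (Q I : Ideal S),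
              Q = Ideal.span {(p : S) ^ a} * (L.map fun j => powIdeal m (p ^ j)).prod ∧
              I = powIdeal m (p ^ i) ∧
              Q * I ^ (e * (p - 1) + 1) ≠ ⊥ ∧
              Q * I ^ (e * (p - 1)) * devIdeal m p (p ^ i) = ⊥ ∧
              ∀ l, l + p = e * (p - 1) + 1 → Q * I ^ l * powIdeal m (p ^ (i + 1)) = ⊥)) ∨
      ((∀ x : R, IsNilpotent (x : Unitization ℤ R)) ∧
        IsAddCyclic (annihilatorSubgroup R) ∧
        IsPrimePow (Nat.card (annihilatorSubgroup R)) ∧
        ∃ x : R, NonUnitalSubring.closure {x} = ⊤) := by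
  by_cases hnil : ∀ x : R, IsNilpotent (x : Unitization ℤ R)
  · have h1 : ∀ (S : Type u) (_ : CommRing S) (_ : IsLocalRing S), ¬ Nonempty (R ≃+* S) := by
      rintro S _ _ ⟨φ⟩
      have : Finite S := Finite.of_equiv R φ.toEquiv
      have h2 := (nil_iff_mem φ _).1 (hnil (φ.symm 1))
      rw [RingEquiv.apply_symm_apply] at h2
      exact (maximalIdeal.isMaximal S).ne_top ((Ideal.eq_top_iff_one _).2 h2)
    rw [Nat.card_congr (Equiv.subtypeUnivEquiv hnil), Nat.div_self Nat.card_pos,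
      max_eq_left hp.pos] at hq
    subst hq
    rw [isSectionCritical_tame R q N hp hcard hlarge]
    exact or_congr_left ⟨fun ⟨S, _, h2, h, _⟩ => absurd h (h1 S _ h2),
      fun ⟨S, _, h2, _, h, _⟩ => absurd h (h1 S _ h2)⟩
  rw [isSectionCritical_iff, or_iff_left fun h => hnil h.1]
  constructor
  · rintro ⟨f, ⟨h1, v, hv⟩, hf⟩
    obtain ⟨e, he, he0⟩ : ∃ e : R, e * e = e ∧ e ≠ 0 := by
      by_contra h
      push Not at h
      exact hnil (nil_of_no_idem h)
    obtain ⟨S, _, _, ⟨φ⟩, hc⟩ := local_struct ⟨_, hv, fun I hI => h1 I hI v⟩ he he0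
    have : Finite S := Finite.of_equiv R φ.toEquiv
    have hS : Nat.card S = p ^ N := (Nat.card_congr φ.toEquiv).symm.trans hcard
    have hm := large_pow_bot φ hp hcard hq hlarge
    exact ⟨S, _, _, _, ⟨φ⟩, rfl, hc, or_iff_not_imp_left.2 fun h => nec_core rfl hm hp (p_mem hS) h
      (sep_of_van hp hS rfl hm (hf.map φ) ⟨fun i => φ (v i), by rw [← eval_map]; simpa using hv⟩)⟩
  · rintro ⟨S, _, _, _, ⟨φ⟩, rfl, hc, h⟩
    have : Finite S := Finite.of_equiv R φ.toEquiv
    obtain ⟨f, hf1, hf2, hf3⟩ := (local_large hp ((Nat.card_congr φ.toEquiv).symm.trans hcard)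
      (large_pow_bot φ hp hcard hq hlarge)).2 h
    exact ⟨f, witness_of_local' φ hc hf1 hf2, hf3.map φ.symm⟩

end Pool.Agent.MP_c0911c_al

end
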