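import Pool.Agent.Mg.Fc0911ca.G4811ed
import Pool.Agent.MP_c0911c_al.RankDefs

section

namespace Pool.Agent.MP_c0911c_al

universe u v

open IsLocalRing

theorem poly_term {r : ℕ} (P : MvPolynomial (Fin r) ℤ) :
    ∃ f : RingTerm, ∀ (A : Type u) [CommRing A] (v : ℕ → A),
      MvPolynomial.aeval (fun i : Fin r => v i) P =
        (MvPolynomial.constantCoeff P : ℤ) + f.eval v := by
  induction P using MvPolynomial.induction_on with
  | C a => exact ⟨.zero, fun A _ v => by simp [RingTerm.eval]⟩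
  | add P Q hP hQ =>
    obtain ⟨f, hf⟩ := hP
    obtain ⟨g, hg⟩ := hQ
    refine ⟨.add f g, fun A _ v => ?_⟩
    simp only [map_add, hf, hg, RingTerm.eval, Int.cast_add]
    ring
  | mul_X P i hP =>
    obtain ⟨f, hf⟩ := hP
    obtain ⟨n, hn | hn⟩ := Int.eq_nat_or_neg (MvPolynomial.constantCoeff P)
    · refine ⟨.add (nsmulTerm (.var i) n) (.mul f (.var i)), fun A _ v => ?_⟩
      simp [hf, hn, RingTerm.eval, eval_nsmulTerm, add_mul]
    · refine ⟨.add (.neg (nsmulTerm (.var i) n)) (.mul f (.var i)), fun A _ v => ?_⟩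
      simp [hf, hn, RingTerm.eval, eval_nsmulTerm, add_mul]

theorem exists_range_eq {α : Type u} (Y : Finset α) {r : ℕ} (h : Y.card = r) :
    ∃ t : Fin r → α, Set.range t = Y :=
  ⟨fun i => ((Y.equivFinOfCardEq h).symm i : α), by
    ext x
    exact ⟨by rintro ⟨i, rfl⟩; exact Subtype.property _,
      fun hx => ⟨Y.equivFinOfCardEq h ⟨x, hx⟩, by simp⟩⟩⟩

section Local

variable {S : Type u} [CommRing S] [Finite S] [IsLocalRing S] {p N : ℕ}

theorem pow_eq_of_sub_mem (hp : p.Prime) (hpm : (p : S) ∈ maximalIdeal S) :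
    ∃ L : ℕ, ∀ M, L ≤ M → ∀ a b : S, a - b ∈ maximalIdeal S → a ^ p ^ M = b ^ p ^ M := by
  have step : ∀ (k : ℕ) (a b : S), a - b ∈ maximalIdeal S ^ (k + 1) →
      a ^ p - b ^ p ∈ maximalIdeal S ^ (k + 2) := by
    intro k a b h
    obtain ⟨z, hz⟩ := exists_add_pow_prime_eq hp b (a - b)
    rw [add_sub_cancel] at hz
    have : a ^ p - b ^ p = (a - b) ^ p + (a - b) * p * (b * z) := by rw [hz]; ring
    rw [this]
    apply Ideal.add_mem
    · have h2 := Ideal.pow_mem_pow h p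
      rw [← pow_mul] at h2
      exact Ideal.pow_le_pow_right (by have := hp.two_le; nlinarith) h2
    · exact Ideal.mul_mem_right _ _ (pow_succ (maximalIdeal S) (k + 1) ▸ Ideal.mul_mem_mul h hpm)
  obtain ⟨L, hL⟩ := maximalIdeal_nilpotent S
  refine ⟨L, fun M hM a b h => ?_⟩
  have : ∀ k, a ^ p ^ k - b ^ p ^ k ∈ maximalIdeal S ^ (k + 1) := fun k => by
    induction k with
    | zero => simpa using h
    | succ k ih => rw [pow_succ p k, pow_mul, pow_mul]; exact step k _ _ ih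
  have h2 := Ideal.pow_le_pow_right (show L ≤ M + 1 by omega) (this M)
  rw [hL] at h2
  exact sub_eq_zero.1 (Ideal.mem_bot.1 h2)

theorem pow_pow_fix {M : Type u} [Monoid M] {x : M} {n : ℕ} (h : x ^ n = x) (k : ℕ) :
    x ^ n ^ k = x := by
  induction k with
  | zero => simp
  | succ k ih => rw [pow_succ, pow_mul, ih, h]

theorem teich_local (hp : p.Prime) (hc : Nat.card S = p ^ N) :
    (∀ a : S, ∃ τ, τ ^ Nat.card (ResidueField S) = τ ∧ a - τ ∈ maximalIdeal S) ∧
    (∀ x : S, (∃ k : ℕ, 0 < k ∧ x ^ (Nat.card S ^ k) = x) ↔ x ^ Nat.card (ResidueField S) = x) ∧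
    ∀ x : S, x ^ Nat.card (ResidueField S) = x → ∀ B : Subring S,
      (∃ w ∈ B, x - w ∈ maximalIdeal S) → x ∈ B := by
  have : Finite (ResidueField S) := Finite.of_surjective _ (residue_surjective (R := S))
  have := Fintype.ofFinite (ResidueField S)
  have hpm := p_mem hc
  have hchar : CharP (ResidueField S) p := by
    apply (CharP.charP_iff_prime_eq_zero hp).2
    rw [← map_natCast (residue S), residue_eq_zero_iff]
    exact hpm
  obtain ⟨f, -, hq⟩ := FiniteField.card (ResidueField S) p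
  obtain ⟨L, hL⟩ := pow_eq_of_sub_mem hp hpm
  have hf : L ≤ f * L := Nat.le_mul_of_pos_left L f.pos
  have base : ∀ (a : S) (k : ℕ), a ^ (p ^ (f : ℕ)) ^ k - a ∈ maximalIdeal S := fun a k => by
    rw [← residue_eq_zero_iff, map_sub, map_pow, ← hq, FiniteField.pow_card_pow, sub_self]
  rw [Nat.card_eq_fintype_card (α := ResidueField S), hq]
  refine ⟨fun a => ⟨a ^ (p ^ (f : ℕ)) ^ L, ?_, by simpa using neg_mem (base a L)⟩,
    fun x => ⟨?_, fun h => ⟨f, f.pos, ?_⟩⟩, ?_⟩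
  · rw [← pow_mul, mul_comm, pow_mul, ← pow_mul p]
    exact hL _ hf _ _ (by simpa using base a 1)
  · rintro ⟨k, hk, h⟩
    have hN : 0 < N := Nat.pos_of_ne_zero (by
      rintro rfl
      exact (Finite.one_lt_card (α := S)).ne' hc)
    have h1 := pow_pow_fix h L
    rw [hc, ← pow_mul p, ← pow_mul p] at h1
    have h2 := hL (N * k * L) (Nat.le_mul_of_pos_left L (Nat.mul_pos hN hk)) (x ^ p ^ (f : ℕ)) x
      (by simpa using base x 1)
    rwa [← pow_mul, mul_comm, pow_mul, h1] at h2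
  · rw [hc, ← pow_mul p, mul_comm, pow_mul p]
    exact pow_pow_fix h N
  · rintro x hx B ⟨w, hw, h⟩
    rw [← pow_pow_fix hx L, ← pow_mul p, hL _ hf _ _ h]
    exact B.pow_mem hw _

theorem local_crit' (hc : Nat.card S = p ^ N) {f : RingTerm} (h2 : ∃ v : ℕ → S, f.eval v ≠ 0)
    (h3 : ∀ B : Subring S, B ≠ ⊤ → (∀ a, ∃ b ∈ B, a - b ∈ maximalIdeal S) →
      ∀ v : ℕ → S, (∀ i, v i ∈ B) → f.eval v = 0) :
    ∃ f : RingTerm, (∀ v : ℕ → S, f.eval v ∈ (maximalIdeal S).annihilator) ∧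
      (∃ v : ℕ → S, f.eval v ≠ 0) ∧ VanProper S f := by
  obtain ⟨g, h4, h5, h6, -⟩ := core_local.{u, u} hc f h2
  refine local_crit h6 h5 fun B hB h0 v hv => ?_
  have h7 := h4 B (fun w => Subtype.ext ((eval_map B.subtype w f).trans
    (h3 B hB h0 _ fun i => (w i).2))) fun i => ⟨v i, hv i⟩
  exact (eval_map B.subtype _ g).symm.trans (congrArg Subtype.val h7)

end Local

section Transport

variable {R : Type u} [NonUnitalCommRing R] {S : Type u} [CommRing S] [Finite S] [IsLocalRing S]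
  {p N : ℕ}

theorem mem_teich_iff (φ : R ≃+* S) (hp : p.Prime) (hc : Nat.card S = p ^ N) (x : R) :
    x ∈ teich R ↔ φ x ^ Nat.card (ResidueField S) = φ x := by
  rw [← (teich_local hp hc).2.1, teich, Set.mem_ofPred_eq, Nat.card_congr φ.toEquiv]
  refine exists_congr fun k => and_congr_right fun _ => ?_
  obtain ⟨n, hn⟩ : ∃ n, Nat.card S ^ k = n + 1 :=
    ⟨_, (Nat.succ_pred_eq_of_pos (pow_pos Nat.card_pos k)).symm⟩
  have h2 := inr_nprod n fun _ => x
  have h3 := map_nprod φ n fun _ => x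
  rw [Finset.prod_const, Finset.card_fin] at h2 h3
  rw [hn, ← h2, ← h3, φ.injective.eq_iff, Unitization.inr_injective.eq_iff]

/-- the subring of `S` that corresponds to a subring of `R` containing the set `teich R` -/
theorem exists_subring (φ : R ≃+* S) (hp : p.Prime) (hc : Nat.card S = p ^ N) (X : Set R) :
    ∃ B : Subring S, ∀ x, φ x ∈ B ↔ x ∈ NonUnitalSubring.closure (teich R ∪ X) := by
  refine ⟨((NonUnitalSubring.closure (teich R ∪ X)).comap (φ.symm : S →ₙ+* R)).toSubring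
    (NonUnitalSubring.subset_closure (Or.inl ((mem_teich_iff φ hp hc _).2 (by simp)))),
    fun x => ?_⟩
  change φ.symm (φ x) ∈ NonUnitalSubring.closure (teich R ∪ X) ↔ _
  rw [RingEquiv.symm_apply_apply]

theorem closure_le_comap (φ : R ≃+* S) (hp : p.Prime) (hc : Nat.card S = p ^ N) {X : Set R}
    {B : Subring S} (h0 : ∀ a, ∃ b ∈ B, a - b ∈ maximalIdeal S) (hX : ∀ x ∈ X, φ x ∈ B)
    (h : NonUnitalSubring.closure (teich R ∪ X) = ⊤) : B = ⊤ := by
  have h1 : NonUnitalSubring.closure (teich R ∪ X) ≤ B.toNonUnitalSubring.comap (φ : R →ₙ+* S) := by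
    rw [NonUnitalSubring.closure_le]
    rintro x (hx | hx)
    · exact (teich_local hp hc).2.2 _ ((mem_teich_iff φ hp hc x).1 hx) B (h0 _)
    · exact hX x hx
  rw [eq_top_iff]
  intro y _
  have h2 : φ (φ.symm y) ∈ B := h1 (h ▸ trivial)
  rwa [RingEquiv.apply_symm_apply] at h2

theorem gens_local (φ : R ≃+* S) (hp : p.Prime) (hc : Nat.card S = p ^ N) {r : ℕ} {y : Fin r → R}
    (h : NonUnitalSubring.closure (teich R ∪ Set.range y) = ⊤) :
    ∃ t : Fin r → S, (∀ i, t i ∈ maximalIdeal S) ∧ maximalIdeal S ≤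
      Ideal.span (Set.range t) ⊔ (Ideal.span {(p : S)} ⊔ maximalIdeal S ^ 2) := by
  obtain ⟨W, hW1, hW2⟩ := exists_coeff_ring hp hc
  choose w hw hw2 using fun i => hW1 (φ (y i))
  refine ⟨fun i => φ (y i) - w i, hw2, ?_⟩
  obtain ⟨B, hB1, hB2, hB3⟩ := coeff_sup hW2 (J := Ideal.span (Set.range fun i => φ (y i) - w i) ⊔
      (Ideal.span {(p : S)} ⊔ maximalIdeal S ^ 2))
    (Ideal.mem_sup_right (Ideal.mem_sup_left (Ideal.mem_span_singleton_self _)))
    (sup_le (Ideal.span_le.2 (by rintro _ ⟨i, rfl⟩; exact hw2 i))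
      (sup_le ((Ideal.span_singleton_le_iff_mem _).2 (p_mem hc)) (Ideal.pow_le_self two_ne_zero)))
  have hB := closure_le_comap φ hp hc (B := B) (fun a => (hW1 a).imp fun b hb => ⟨hB1 hb.1, hb.2⟩)
    (by
      rintro _ ⟨i, rfl⟩
      have := B.add_mem (hB1 (hw i)) (hB2 _ (Ideal.mem_sup_left
        (Ideal.subset_span (Set.mem_range_self i))))
      rwa [add_sub_cancel] at this) h
  exact fun x hx => hB3 x (hB ▸ trivial) hx

end Transport

end Pool.Agent.MP_c0911c_al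

end

section

namespace Pool.Agent.MP_c0911c_al

universe u v

theorem decomp {A : Type u} [CommRing A] {N Φ : Ideal A} {ι : Type v} (ω : ι → A)
    (hω : ∀ a, ∃ k, a - ω k ∈ N) (hΦ : N ^ 2 ≤ Φ) {e : ℕ} {X : Fin e → A} (hX : ∀ j, X j ∈ N)
    {y : A} (hy : y ∈ Ideal.span (Set.range X) ⊔ Φ) :
    ∃ k : Fin e → ι, y - ∑ j, ω (k j) * X j ∈ Φ := by
  obtain ⟨a, ha, z, hz, rfl⟩ := Submodule.mem_sup.1 hy
  obtain ⟨c, rfl⟩ := Ideal.mem_span_range_iff_exists_fun.1 ha
  choose k hk using fun j => hω (c j)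
  refine ⟨k, ?_⟩
  rw [add_sub_right_comm, ← Finset.sum_sub_distrib]
  refine add_mem (Φ.sum_mem fun j _ => hΦ ?_) hz
  rw [← sub_mul, pow_two]
  exact Ideal.mul_mem_mul (hk j) (hX j)

section Nil

variable {R : Type u} [NonUnitalCommRing R] [Finite R]

omit [Finite R] in
theorem nil_of_foldl
    (hn : ∃ n : ℕ, ∀ (a : R) (l : List R), l.length = n → l.foldl (· * ·) a = 0) (x : R) :
    IsNilpotent (x : Unitization ℤ R) := by
  obtain ⟨n, hn⟩ := hn
  have key : ∀ (k : ℕ) (a : R), (((List.replicate k x).foldl (· * ·) a : R) : Unitization ℤ R) =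
      a * (x : Unitization ℤ R) ^ k := fun k => by
    induction k with
    | zero => simp
    | succ k ih =>
      intro a
      rw [List.replicate_succ, List.foldl_cons, ih, Unitization.inr_mul]
      ring
  refine ⟨n + 1, ?_⟩
  rw [pow_succ', ← key, hn _ _ (List.length_replicate ..), Unitization.inr_zero]

theorem nil_pgroup
    (hn : ∃ n : ℕ, ∀ (a : R) (l : List R), l.length = n → l.foldl (· * ·) a = 0) {p k : ℕ}
    (hp : p.Prime) (hk : Nat.card (annihilatorSubgroup R) = p ^ k) :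
    ∃ n : ℕ, ∀ x : R, p ^ n • x = 0 := by
  obtain ⟨n, u, hu, h⟩ := Nat.exists_eq_pow_mul_and_not_dvd (Nat.card_pos (α := R)).ne' p hp.ne_one
  refine ⟨n, fun x => ?_⟩
  by_contra hx
  let I : TwoSidedIdeal R := TwoSidedIdeal.mk' {z | u • z = 0} (smul_zero u)
    (fun {y z} hy hz => by
      simp only [Set.mem_ofPred_eq] at *
      rw [smul_add, hy, hz, add_zero])
    (fun {y} hy => by
      simp only [Set.mem_ofPred_eq] at *
      rw [smul_neg, hy, neg_zero])
    (fun {y z} hz => by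
      simp only [Set.mem_ofPred_eq] at *
      rw [← mul_smul_comm, hz, mul_zero])
    (fun {y z} hy => by
      simp only [Set.mem_ofPred_eq] at *
      rw [← smul_mul_assoc, hy, zero_mul])
  have hI : ∀ z, z ∈ I ↔ u • z = 0 := fun z => by simp [I]
  obtain ⟨b, hb, hb0, hba⟩ := exists_mem_ann hn (I := I) (a := p ^ n • x) ((hI _).2 (by
    rw [← mul_smul, mul_comm, ← h, card_nsmul_eq_zero'])) hx
  refine hb0 (eq_zero_of_coprime_smul (p := p) (N := k) (d := (u : ℤ))
    (Nat.isCoprime_iff_coprime.2 ((Nat.Prime.coprime_iff_not_dvd hp).2 hu).symm)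
    (by rw [natCast_zsmul, (hI b).1 hb]) ?_)
  have := card_nsmul_eq_zero' (G := annihilatorSubgroup R) (x := ⟨b, hba⟩)
  rw [hk] at this
  exact congrArg Subtype.val this

theorem witness_nil
    (hn : ∃ n : ℕ, ∀ (a : R) (l : List R), l.length = n → l.foldl (· * ·) a = 0)
    (hcyc : IsAddCyclic (annihilatorSubgroup R)) {p k : ℕ} (hp : p.Prime)
    (hk : Nat.card (annihilatorSubgroup R) = p ^ k) {h : RingTerm}
    (h1 : ∃ v : ℕ → R, h.eval v ≠ 0)
    (h2 : ∀ v : ℕ → R, h.eval v ∈ annihilatorSubgroup R ∧ p • h.eval v = 0) : Witness R h := by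
  refine ⟨fun I hI v => ?_, h1⟩
  obtain ⟨x, hx, hx0⟩ := exists_ne_zero_of_ne_bot hI
  obtain ⟨b, hb, hb0, hba⟩ := exists_mem_ann hn hx hx0
  have h3 := cyclic_pgroup_aux (G := annihilatorSubgroup R) hp hk
    (b := ⟨b, hba⟩) (c := ⟨_, (h2 v).1⟩) (fun h => hb0 (congrArg Subtype.val h))
    (Subtype.ext (h2 v).2)
  obtain ⟨z, hz⟩ := AddSubgroup.mem_zmultiples_iff.1 h3
  have hz' : z • b = h.eval v := congrArg Subtype.val hz
  exact hz' ▸ I.zsmul_mem z hb

theorem teich_nil (hnil : ∀ x : R, IsNilpotent (x : Unitization ℤ R)) [Nontrivial R] {x : R}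
    (hx : x ∈ teich R) : x = 0 := by
  obtain ⟨k, hk, h⟩ := hx
  obtain ⟨L, hL⟩ := hnil x
  have h1 := pow_pow_fix h L
  have h2 : (x : Unitization ℤ R) ^ (Nat.card R ^ k) ^ L = 0 :=
    pow_eq_zero_of_le (a := (x : Unitization ℤ R))
      (Nat.lt_pow_self (Nat.one_lt_pow hk.ne' (Finite.one_lt_card (α := R)))).le hL
  exact Unitization.inr_injective (R := ℤ) ((h1.symm.trans h2).trans (Unitization.inr_zero ℤ).symm)

theorem closure_le_nil (hnil : ∀ x : R, IsNilpotent (x : Unitization ℤ R)) [Nontrivial R]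
    {X : Set R} {B : NonUnitalSubring R} (hX : X ⊆ B) :
    NonUnitalSubring.closure (teich R ∪ X) ≤ B := by
  rw [NonUnitalSubring.closure_le]
  rintro x (hx | hx)
  · rw [teich_nil hnil hx]
    exact B.zero_mem
  · exact hX hx

/-- `A` is `R` with an identity adjoined -/
structure Aug {A : Type u} [CommRing A] (ι : R →ₙ+* A) (N : Ideal A) : Prop where
  inj : Function.Injective ι
  mem : ∀ x, x ∈ N ↔ ∃ r, x = ι r
  sub : ∀ a : A, ∃ k : ℤ, a - k ∈ N
  int : ∀ k : ℤ, (k : A) ∈ N → (k : A) = 0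
  nil : IsNilpotent N

theorem exists_aug (h : ∀ x : R, IsNilpotent (x : Unitization ℤ R)) :
    ∃ (ι : R →ₙ+* Unitization ℤ R) (N : Ideal (Unitization ℤ R)), (∀ x, ι x = x) ∧
      Aug (A := Unitization ℤ R) ι N := by
  refine ⟨Unitization.inrNonUnitalAlgHom ℤ R, augIdeal R, fun _ => rfl, Unitization.inr_injective,
    fun _ => mem_augIdeal, fun a => ⟨a.fst, mem_augIdeal.2 ⟨a.snd, ?_⟩⟩, fun k hk => ?_, ?_⟩
  · rw [sub_eq_iff_eq_add', ← eq_intCast (Unitization.inlRingHom ℤ R)]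
    exact (Unitization.inl_fst_add_inr_snd_eq a).symm
  · have h1 : (Unitization.fstHom ℤ R) (k : Unitization ℤ R) = 0 := hk
    rw [map_intCast] at h1
    have h2 : k = 0 := h1
    rw [h2, Int.cast_zero]
  · have h1 : (augIdeal R : Set (Unitization ℤ R)).Finite :=
      (Set.finite_range (fun x : R => (x : Unitization ℤ R))).subset fun _ hx =>
        (mem_augIdeal.1 hx).imp fun _ h => h.symm
    have h2 : (augIdeal R).FG := Submodule.fg_def.2 ⟨_, h1, Submodule.span_eq _⟩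
    refine (Ideal.FG.isNilpotent_iff_le_nilradical (R := Unitization ℤ R) h2).2 fun x hx => ?_
    obtain ⟨y, rfl⟩ := mem_augIdeal.1 hx
    exact h y

variable {A : Type u} [CommRing A] {ι : R →ₙ+* A} {N : Ideal A}

omit [Finite R] in
theorem Aug.mem' (h : Aug ι N) (x : R) : ι x ∈ N := (h.mem _).2 ⟨x, rfl⟩

omit [Finite R] in
theorem Aug.mem_phi (h : Aug ι N) {p : ℕ} {z : A} (hz : z ∈ Ideal.span {(p : A)} * N ⊔ N ^ 2) :
    ∃ u : R, z - p • ι u ∈ N ^ 2 := by
  obtain ⟨a, ha, y, hy, rfl⟩ := Submodule.mem_sup.1 hz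
  obtain ⟨u, hu, rfl⟩ := Ideal.mem_span_singleton_mul.1 ha
  obtain ⟨u, rfl⟩ := (h.mem _).1 hu
  exact ⟨u, by rwa [nsmul_eq_mul, add_sub_cancel_left]⟩

omit [Finite R] in
theorem core_nil (hA : Aug ι N) {p n : ℕ} (hp : ∀ x : R, p ^ n • x = 0) (f : RingTerm)
    (hf : ∃ v : ℕ → R, f.eval v ≠ 0) :
    ∃ h : RingTerm, Cons.{v} f h ∧ (∃ v : ℕ → R, h.eval v ≠ 0) ∧
      (∀ v : ℕ → R, h.eval v ∈ annihilatorSubgroup R ∧ p • h.eval v = 0) ∧
      ∀ v w : ℕ → R, (∀ i, ι (v i) - ι (w i) ∈ Ideal.span {(p : A)} * N ⊔ N ^ 2) →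
        h.eval v = h.eval w := by
  obtain ⟨L, hL⟩ := hA.nil
  obtain ⟨v, hv⟩ := hf
  have hinj : ∀ x : R, ι x = 0 → x = 0 := fun x hx => hA.inj (by rw [hx, map_zero])
  let U : NonUnitalSubring A :=
    { N.toAddSubgroup with mul_mem' := fun _ hy => N.mul_mem_left _ hy }
  obtain ⟨h, h3, ⟨w, hw, h4⟩, h5⟩ := core.{u, v} U N (fun _ h => h) hL
    (p := p) (n := n) (fun y hy => by
      have h1 : (p : A) ^ n * y ∈ N := hy
      obtain ⟨k, hk⟩ := hA.sub y
      have h2 : (p : A) ^ n * y = ((p ^ n * k : ℤ) : A) := by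
        obtain ⟨x, hx⟩ := (hA.mem _).1 hk
        push_cast
        rw [← sub_eq_zero, ← mul_sub, hx, ← Nat.cast_pow, ← nsmul_eq_mul, ← map_nsmul, hp,
          map_zero]
      rw [h2] at h1 ⊢
      exact hA.int _ h1) (.var 0) (fun _ h => h) (fun _ _ => rfl) f
    ⟨fun i => ι (v i), fun i => hA.mem' _, fun h => hv (hinj _ ((eval_map ι v f).trans h))⟩
  refine ⟨h, h3, ?_, fun v => ⟨fun x => hinj _ ?_, hinj _ ?_⟩, fun v w hvw => ?_⟩
  · choose w' hw' using fun i => (hA.mem _).1 (hw i)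
    refine ⟨w', fun h0 => h4 ?_⟩
    rw [funext hw', ← eval_map, h0, map_zero]
  · rw [map_mul, eval_map, mul_comm]
    exact (h5 _ fun i => hA.mem' _).1 _ (hA.mem' x)
  · rw [map_nsmul, eval_map]
    exact (h5 _ fun i => hA.mem' _).2.1
  · apply hA.inj
    rw [eval_map, eval_map, ← (h5 (fun i => ι (w i)) fun i => hA.mem' _).2.2
      (fun i => ι (v i) - ι (w i)) fun i => ?_]
    · simp
    · obtain ⟨u, hu⟩ := hA.mem_phi (hvw i)
      exact ⟨ι u, hA.mem' u, hu⟩

omit [Finite R] in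
theorem span_lt_nil (hA : Aug ι N) {p n : ℕ} (hp : ∀ x : R, p ^ n • x = 0)
    (B : NonUnitalSubring R) (hB : B ≠ ⊤) :
    Ideal.span (ι '' B) ⊔ (Ideal.span {(p : A)} * N ⊔ N ^ 2) < N := by
  refine lt_of_le_of_ne (sup_le (Ideal.span_le.2 ?_) (sup_le Ideal.mul_le_right
    (Ideal.pow_le_self two_ne_zero))) fun h => hB ?_
  · rintro _ ⟨x, -, rfl⟩
    exact hA.mem' x
  have key : ∀ y ∈ Ideal.span (ι '' B), ∃ b ∈ B, y - ι b ∈ N ^ 2 := by
    intro y hy
    induction hy using Submodule.span_induction with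
    | mem y hy =>
      obtain ⟨b, hb, rfl⟩ := hy
      exact ⟨b, hb, by simp⟩
    | zero => exact ⟨0, zero_mem _, by simp⟩
    | add y z _ _ hy hz =>
      obtain ⟨b, h1, h3⟩ := hy
      obtain ⟨c, h4, h6⟩ := hz
      exact ⟨b + c, add_mem h1 h4, by
        rw [map_add, add_sub_add_comm]
        exact add_mem h3 h6⟩
    | smul a y _ hy =>
      obtain ⟨b, h1, h3⟩ := hy
      obtain ⟨k, hk⟩ := hA.sub a
      refine ⟨k • b, zsmul_mem h1 _, ?_⟩
      have e : a • y - ι (k • b) = a * (y - ι b) + (a - k) * ι b := by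
        rw [smul_eq_mul, map_zsmul, zsmul_eq_mul]
        ring
      rw [e]
      exact add_mem (Ideal.mul_mem_left _ _ h3) (pow_two N ▸ Ideal.mul_mem_mul hk (hA.mem' b))
  have key2 : ∀ (k : ℕ) (y : R), ∃ b ∈ B, ∃ u : R, ι y - ι b - p ^ k • ι u ∈ N ^ 2 := by
    intro k y
    induction k with
    | zero => exact ⟨0, zero_mem _, y, by simp⟩
    | succ k ih =>
      obtain ⟨b, hb, u, hu⟩ := ih
      obtain ⟨a, ha, z, hz, h1⟩ := Submodule.mem_sup.1 (h.ge (hA.mem' u))
      obtain ⟨c, hc, h2⟩ := key a ha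
      obtain ⟨w, hw⟩ := hA.mem_phi hz
      refine ⟨b + p ^ k • c, add_mem hb (nsmul_mem hc _), w, ?_⟩
      have h3 := add_mem hu (nsmul_mem (add_mem h2 hw) (p ^ k))
      rw [← h1] at h3
      convert h3 using 1
      simp only [map_add, map_nsmul, nsmul_eq_mul]
      push_cast
      ring
  let B' : Subring A :=
    { carrier := {a | ∃ k : ℤ, ∃ b ∈ B, a = k + ι b}
      mul_mem' := by
        rintro _ _ ⟨k, b, hb, rfl⟩ ⟨l, c, hc, rfl⟩
        refine ⟨k * l, k • c + l • b + b * c,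
          add_mem (add_mem (zsmul_mem hc _) (zsmul_mem hb _)) (mul_mem hb hc), ?_⟩
        simp only [map_add, map_zsmul, map_mul, zsmul_eq_mul, Int.cast_mul]
        ring
      one_mem' := ⟨1, 0, zero_mem _, by simp⟩
      add_mem' := by
        rintro _ _ ⟨k, b, hb, rfl⟩ ⟨l, c, hc, rfl⟩
        exact ⟨k + l, b + c, add_mem hb hc, by rw [map_add, Int.cast_add, add_add_add_comm]⟩
      zero_mem' := ⟨0, 0, zero_mem _, by simp⟩
      neg_mem' := by
        rintro _ ⟨k, b, hb, rfl⟩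
        exact ⟨-k, -b, neg_mem hb, by rw [map_neg, Int.cast_neg, neg_add]⟩ }
  have hB' : B' = ⊤ := by
    refine subring_eq_top N hA.nil B' (fun u => ?_) fun y hy => ?_
    · obtain ⟨k, hk⟩ := hA.sub u
      exact ⟨_, intCast_mem B' k, hk⟩
    obtain ⟨y, rfl⟩ := (hA.mem _).1 hy
    obtain ⟨b, hb, u, hu⟩ := key2 n y
    rw [← map_nsmul, hp, map_zero, sub_zero] at hu
    exact ⟨ι b, ⟨0, b, hb, by simp⟩, hA.mem' b, hu⟩
  rw [eq_top_iff]
  intro y _
  obtain ⟨k, b, hb, h1⟩ : ι y ∈ B' := hB' ▸ trivial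
  have h2 := hA.int k (by simpa [h1] using sub_mem (hA.mem' y) (hA.mem' b))
  rw [h2, zero_add] at h1
  exact hA.inj h1 ▸ hb

theorem hyper_nil (hA : Aug ι N) {p : ℕ} (hp : p.Prime) {J : Ideal A} {r : ℕ} (t : Fin r → R)
    (hN : N ≤ Ideal.span (Set.range fun i => ι (t i)))
    (h1 : Ideal.span {(p : A)} * N ⊔ N ^ 2 ≤ J) (h2 : J < N) :
    ∃ e, r = e + 1 ∧ ∃ X : Fin e → R,
      J ≤ Ideal.span (Set.range fun i => ι (X i)) ⊔ (Ideal.span {(p : A)} * N ⊔ N ^ 2) := by
  suffices hc : ∀ c : A, (∀ x ∈ N, c * x ∈ Ideal.span {(p : A)} * N ⊔ N ^ 2) ∨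
      ∃ d, ∀ x ∈ N, x - d * c * x ∈ Ideal.span {(p : A)} * N ⊔ N ^ 2 by
    obtain ⟨e, he, X, hX, h⟩ := hyper ((Set.finite_range ι).subset fun _ hx =>
      ((hA.mem _).1 hx).imp fun _ h => h.symm) hc _ (fun i => hA.mem' (t i))
      (hN.trans le_sup_left) h1 h2
    choose X' hX' using fun i => (hA.mem _).1 (hX i)
    exact ⟨e, he, X', by rwa [← funext hX']⟩
  intro c
  obtain ⟨k, hk⟩ := hA.sub c
  have h3 : ∀ x ∈ N, ∀ a : A, a * (c - k) * x ∈ Ideal.span {(p : A)} * N ⊔ N ^ 2 :=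
    fun x hx a => Ideal.mem_sup_right (pow_two N ▸
      Ideal.mul_mem_mul (Ideal.mul_mem_left _ _ hk) hx)
  have h4 : ∀ x ∈ N, ∀ a : A, a * p * x ∈ Ideal.span {(p : A)} * N ⊔ N ^ 2 :=
    fun x hx a => Ideal.mem_sup_left (Ideal.mul_mem_mul
      (Ideal.mul_mem_left _ _ (Ideal.mem_span_singleton_self _)) hx)
  by_cases hc : (p : ℤ) ∣ k
  · obtain ⟨k, rfl⟩ := hc
    refine Or.inl fun x hx => ?_
    convert add_mem (h3 x hx 1) (h4 x hx k) using 1
    push_cast
    ring
  · obtain ⟨a, b, hab⟩ := (Int.prime_iff_natAbs_prime.2 (by simpa using hp)).coprime_iff_not_dvd.2 hc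
    refine Or.inr ⟨b, fun x hx => ?_⟩
    have h5 := congrArg (Int.cast : ℤ → A) hab
    push_cast at h5
    convert sub_mem (h4 x hx a) (h3 x hx b) using 1
    linear_combination (-x) * h5

theorem gens_nil (hA : Aug ι N) (hnil : ∀ x : R, IsNilpotent (x : Unitization ℤ R)) [Nontrivial R]
    {r : ℕ} {t : Fin r → R} (h : NonUnitalSubring.closure (teich R ∪ Set.range t) = ⊤) :
    N ≤ Ideal.span (Set.range fun i => ι (t i)) := by
  intro y hy
  obtain ⟨y, rfl⟩ := (hA.mem _).1 hy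
  let B : NonUnitalSubring R :=
    { ((Ideal.span (Set.range fun i => ι (t i))).toAddSubgroup.comap (ι : R →+ A)) with
      mul_mem' := fun {a b} _ hb => by
        change ι (a * b) ∈ Ideal.span (Set.range fun i => ι (t i))
        rw [map_mul]
        exact Ideal.mul_mem_left _ _ hb }
  have h1 := closure_le_nil hnil (X := Set.range t) (B := B) (by
    rintro _ ⟨i, rfl⟩
    exact Ideal.subset_span (Set.mem_range_self i))
  exact h1 (h ▸ trivial : y ∈ _)

end Nil

end Pool.Agent.MP_c0911c_al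

end

section

namespace Pool.Agent.MP_c0911c_al

universe u v

open IsLocalRing

theorem Cons.van {R : Type u} [NonUnitalRing R] {f h : RingTerm} (hc : Cons.{u} f h)
    (B : NonUnitalSubring R) (hB : ∀ v : ℕ → R, (∀ i, v i ∈ B) → f.eval v = 0) (v : ℕ → R)
    (hv : ∀ i, v i ∈ B) : h.eval v = 0 := by
  have h1 := hc B (fun w => Subtype.ext ((eval_map (NonUnitalSubringClass.subtype B) w f).trans
    (hB _ fun i => (w i).2))) fun i => ⟨v i, hv i⟩
  exact (eval_map (NonUnitalSubringClass.subtype B) _ h).symm.trans (congrArg Subtype.val h1)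

theorem satisfies_sub_iff {R : Type u} [NonUnitalRing R] (B : NonUnitalSubring R)
    (s t : RingTerm) :
    SatisfiesIdentity B s t ↔ ∀ v : ℕ → R, (∀ i, v i ∈ B) → s.eval v = t.eval v :=
  ⟨fun h v hv => ((eval_map (NonUnitalSubringClass.subtype B) (fun i => ⟨v i, hv i⟩) s).symm.trans
      (congrArg Subtype.val (h _))).trans (eval_map (NonUnitalSubringClass.subtype B) _ t),
    fun h w => Subtype.ext (((eval_map (NonUnitalSubringClass.subtype B) w s).trans
      (h _ fun i => (w i).2)).trans (eval_map (NonUnitalSubringClass.subtype B) w t).symm)⟩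

variable {R : Type u} [NonUnitalCommRing R] [Finite R]

theorem rank_local {S : Type u} [CommRing S] [IsLocalRing S] (φ : R ≃+* S)
    (hc : Nat.card (maximalIdeal S).annihilator = Nat.card (ResidueField S)) {r : ℕ}
    {y : Fin r → R} (hy : NonUnitalSubring.closure (teich R ∪ Set.range y) = ⊤) {f : RingTerm}
    (h0 : ∃ v : ℕ → R, f.eval v ≠ 0) (h1 : ∀ X : Finset R, X.card < r → ∀ v : ℕ → R,
      (∀ i, v i ∈ NonUnitalSubring.closure (teich R ∪ X)) → f.eval v = 0) :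
    IsSectionCritical R := by
  classical
  have : Finite S := Finite.of_equiv R φ.toEquiv
  obtain ⟨p, N, hp, hS⟩ := exists_card_local (S := S)
  obtain ⟨t, ht1, ht2⟩ := gens_local φ hp hS hy
  obtain ⟨v0, hv0⟩ := h0
  obtain ⟨h, h2, h3, h4, h5⟩ := core_local.{u, u} hS f
    ⟨fun i => φ (v0 i), by rw [← eval_map]; simpa using hv0⟩
  obtain ⟨hT1, -, hT2⟩ := teich_local hp hS
  obtain ⟨g, hg1, hg2, hg3⟩ := local_crit h4 h3 fun B hB hB0 v hv => by
    obtain ⟨e, rfl, X, hX, hJ⟩ := hyper_local t ht1 ht2 le_sup_right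
      (span_lt_local (p_mem hS) B hB hB0)
    choose τ hτ1 hτ2 using fun i => hT1 (v i)
    choose k hk using fun i => decomp (Subtype.val : {x : S // x ^ Nat.card (ResidueField S) = x} → S)
      (fun a => (hT1 a).elim fun x hx => ⟨⟨x, hx.1⟩, hx.2⟩) le_sup_right hX
      (hJ (Ideal.mem_sup_left (Ideal.subset_span (s := {b | b ∈ B ∧ b ∈ maximalIdeal S})
        ⟨B.sub_mem (hv i) (hT2 _ (hτ1 i) B (hB0 _)), hτ2 i⟩)))
    obtain ⟨C, hC⟩ := exists_subring φ hp hS (Finset.univ.image fun j => φ.symm (X j) : Finset R)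
    have hT : ∀ x : S, x ^ Nat.card (ResidueField S) = x → x ∈ C := fun x hx => by
      rw [← φ.apply_symm_apply x, hC]
      exact NonUnitalSubring.subset_closure (Or.inl ((mem_teich_iff φ hp hS _).2 (by simpa)))
    have h6 := h2.van _ (h1 (Finset.univ.image fun j => φ.symm (X j))
      (Finset.card_image_le.trans_lt (by simp)))
      (fun i => φ.symm (τ i + ∑ j, (k i j : S) * X j)) fun i => by
        rw [← hC, φ.apply_symm_apply]
        refine C.add_mem (hT _ (hτ1 i)) (C.sum_mem fun j _ => C.mul_mem (hT _ (k i j).2) ?_)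
        rw [← φ.apply_symm_apply (X j), hC]
        exact NonUnitalSubring.subset_closure (Or.inr (by simp))
    rw [← eval_map, map_eq_zero_iff _ φ.symm.injective] at h6
    rw [← h6]
    exact h5 _ _ fun i => by simpa only [sub_sub] using hk i
  exact (isSectionCritical_iff R).2 ⟨g, witness_of_local' φ hc hg1 hg2, hg3.map φ.symm⟩

theorem rank_nil
    (hn : ∃ n : ℕ, ∀ (a : R) (l : List R), l.length = n → l.foldl (· * ·) a = 0)
    (hcyc : IsAddCyclic (annihilatorSubgroup R))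
    (hpp : IsPrimePow (Nat.card (annihilatorSubgroup R))) {r : ℕ}
    {y : Fin r → R} (hy : NonUnitalSubring.closure (teich R ∪ Set.range y) = ⊤) {f : RingTerm}
    (h0 : ∃ v : ℕ → R, f.eval v ≠ 0) (h1 : ∀ X : Finset R, X.card < r → ∀ v : ℕ → R,
      (∀ i, v i ∈ NonUnitalSubring.closure (teich R ∪ X)) → f.eval v = 0) :
    IsSectionCritical R := by
  classical
  obtain ⟨p, k, hp, -, hk⟩ := (isPrimePow_nat_iff _).1 hpp
  obtain ⟨n, hpn⟩ := nil_pgroup hn hp hk.symm
  have hnil := nil_of_foldl hn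
  have : Nontrivial R := h0.elim fun _ hv => ⟨_, _, hv⟩
  obtain ⟨ι, N, -, hA⟩ := exists_aug hnil
  obtain ⟨h, h2, h3, h4, h5⟩ := core_nil.{u, u} hA hpn f h0
  refine (isSectionCritical_iff R).2 ⟨h, witness_nil hn hcyc hp hk.symm h3 h4, fun B hB v hv => ?_⟩
  obtain ⟨e, rfl, X, hJ⟩ := hyper_nil hA hp y (gens_nil hA hnil hy) le_sup_right
    (span_lt_nil hA hpn B hB)
  choose c hc using fun i => decomp Int.cast hA.sub le_sup_right (fun j => hA.mem' (X j))
    (hJ (Ideal.mem_sup_left (Ideal.subset_span (Set.mem_image_of_mem ι (hv i)))))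
  rw [h5 v (fun i => ∑ j, c i j • X j) fun i => by
    simpa only [map_sum, map_zsmul, zsmul_eq_mul] using hc i]
  exact h2.van _ (h1 (Finset.univ.image X) (Finset.card_image_le.trans_lt (by simp))) _ fun i =>
    sum_mem fun j _ => zsmul_mem (NonUnitalSubring.subset_closure
      (Set.mem_union_right _ (by simp))) _

theorem isSectionCritical_rank (R : Type u) [NonUnitalCommRing R] [Finite R] (r : ℕ)
    (hr : IsLeast {n : ℕ | ∃ Y : Finset R, Y.card = n ∧
      NonUnitalSubring.closure (teich R ∪ Y) = ⊤} r) :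
    IsSectionCritical R ↔
      ((∃ (S : Type u) (_ : CommRing S) (_ : IsLocalRing S), Nonempty (R ≃+* S) ∧
        Nat.card (IsLocalRing.maximalIdeal S).annihilator =
          Nat.card (IsLocalRing.ResidueField S)) ∨
      ((∃ n : ℕ, ∀ (a : R) (l : List R), l.length = n → l.foldl (· * ·) a = 0) ∧
        IsAddCyclic (annihilatorSubgroup R) ∧
        IsPrimePow (Nat.card (annihilatorSubgroup R)))) ∧
      ∃ s t : RingTerm, (∀ X : Finset R, X.card < r →
        SatisfiesIdentity (NonUnitalSubring.closure (teich R ∪ X)) s t) ∧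
        ¬ SatisfiesIdentity R s t := by
  constructor
  · intro h
    obtain ⟨f, hf1, hf2⟩ := (isSectionCritical_iff R).1 h
    refine ⟨(isCritical_iff R).1 ((isCritical_iff_witness R).2 ⟨f, hf1⟩), f, .zero,
      fun X hX => (satisfies_sub_iff _ _ _).2 (hf2 _ fun h => hX.not_ge (hr.2 ⟨X, rfl, h⟩)),
      fun h => hf1.2.elim fun v hv => hv (h v)⟩
  · rintro ⟨h, s, t, h1, h2⟩
    obtain ⟨Y, hY, hY2⟩ := hr.1
    obtain ⟨y, hy⟩ := exists_range_eq Y hY
    rw [← hy] at hY2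
    have h3 : ∃ v : ℕ → R, (RingTerm.add s (.neg t)).eval v ≠ 0 := by
      simpa [SatisfiesIdentity, RingTerm.eval, ← sub_eq_add_neg, sub_eq_zero] using h2
    have h4 : ∀ X : Finset R, X.card < r → ∀ v : ℕ → R,
        (∀ i, v i ∈ NonUnitalSubring.closure (teich R ∪ X)) →
          (RingTerm.add s (.neg t)).eval v = 0 := fun X hX v hv => by
      simp [RingTerm.eval, (satisfies_sub_iff _ _ _).1 (h1 X hX) v hv]
    rcases h with ⟨S, _, _, ⟨φ⟩, hc⟩ | ⟨h5, h6, h7⟩
    · exact rank_local φ hc hY2 h3 h4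
    · exact rank_nil h5 h6 h7 hY2 h3 h4

end Pool.Agent.MP_c0911c_al

end
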